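import Mathlib

/-!
# A determinant inequality for accretive matrices
-/

set_option autoImplicit false
set_option linter.unusedSectionVars false

namespace Pool.Agent.Helper168.SV

open Matrix

noncomputable section

variable {m n : Type*} [Fintype m] [Fintype n] [DecidableEq m] [DecidableEq n]

/-- the Euclidean norm of a complex vector -/
def nrm (x : n → ℂ) : ℝ := ‖(WithLp.toLp 2 x : EuclideanSpace ℂ n)‖

/-- the hermitian product, conjugate linear in the first variable -/
def ip (x y : n → ℂ) : ℂ := star x ⬝ᵥ y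

theorem ip_eq (x y : n → ℂ) :
    ip x y = inner ℂ (WithLp.toLp 2 x : EuclideanSpace ℂ n) (WithLp.toLp 2 y) := by
  rw [EuclideanSpace.inner_toLp_toLp, dotProduct_comm]
  rfl

theorem ip_le (x y : n → ℂ) : ‖ip x y‖ ≤ nrm x * nrm y := by
  rw [ip_eq]
  exact norm_inner_le_norm _ _

theorem nrm_nonneg (x : n → ℂ) : 0 ≤ nrm x := norm_nonneg _

theorem ip_self (x : n → ℂ) : ip x x = ((nrm x ^ 2 : ℝ) : ℂ) := by
  rw [ip_eq, inner_self_eq_norm_sq_to_K]
  push_cast
  rfl

theorem nrm_add (x y : n → ℂ) : nrm (x + y) ≤ nrm x + nrm y := norm_add_le _ _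

theorem nrm_sub (x y : n → ℂ) : nrm (x - y) ≤ nrm x + nrm y := norm_sub_le _ _

theorem nrm_smul (c : ℂ) (x : n → ℂ) : nrm (c • x) = ‖c‖ * nrm x := by
  unfold nrm
  rw [WithLp.toLp_smul, norm_smul]

theorem nrm_eq_zero {x : n → ℂ} (h : nrm x = 0) : x = 0 := by
  have h1 : (WithLp.toLp 2 x : EuclideanSpace ℂ n) = 0 := norm_eq_zero.mp h
  simpa using h1

theorem nrm_sq (x : n → ℂ) : nrm x ^ 2 = ∑ i, ‖x i‖ ^ 2 := by
  unfold nrm
  rw [EuclideanSpace.norm_sq_eq]

theorem ip_mulVec (M : Matrix m n ℂ) (x : m → ℂ) (y : n → ℂ) :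
    ip x (M *ᵥ y) = ip (Mᴴ *ᵥ x) y := by
  unfold ip
  rw [star_mulVec, conjTranspose_conjTranspose, dotProduct_mulVec]

/-- the determinant is bounded by a power of the operator norm -/
theorem det_le (M : Matrix n n ℂ) (a : ℝ) (h : ∀ x, nrm (M *ᵥ x) ≤ a * nrm x) :
    ‖M.det‖ ≤ a ^ Fintype.card n := by
  have h1 : ∀ s : Multiset ℂ, (∀ z ∈ s, ‖z‖ ≤ a) → ‖s.prod‖ ≤ a ^ s.card := by
    intro s
    induction s using Multiset.induction_on with
    | empty => simp
    | cons z s ih =>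
      intro hs
      rw [Multiset.prod_cons, norm_mul, Multiset.card_cons, pow_succ']
      have h2 := hs z (Multiset.mem_cons_self z s)
      have h3 := ih fun w hw => hs w (Multiset.mem_cons_of_mem hw)
      exact mul_le_mul h2 h3 (norm_nonneg _) ((norm_nonneg _).trans h2)
  rw [det_eq_prod_roots_charpoly]
  have h2 : M.charpoly.roots.card = Fintype.card n := by
    rw [← (IsAlgClosed.splits M.charpoly).natDegree_eq_card_roots, charpoly_natDegree_eq_dim]
  rw [← h2]
  refine h1 _ fun z hz => ?_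
  have h3 : M.charpoly.eval z = 0 := (Polynomial.mem_roots (charpoly_monic M).ne_zero).mp hz
  rw [eval_charpoly] at h3
  obtain ⟨v, hv, hv2⟩ := exists_mulVec_eq_zero_iff.mpr h3
  rw [sub_mulVec, sub_eq_zero] at hv2
  have h4 : M *ᵥ v = z • v := by
    rw [← hv2]
    ext i
    simp [scalar_apply, mulVec_diagonal]
  have h5 := h v
  rw [h4, nrm_smul] at h5
  have h6 : 0 < nrm v := lt_of_le_of_ne (nrm_nonneg v) fun h7 => hv (nrm_eq_zero h7.symm)
  exact le_of_mul_le_mul_right h5 h6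

/-- `Re ⟨x, T x⟩ ≥ 0` -/
def Acc (T : Matrix n n ℂ) : Prop := ∀ x, 0 ≤ (ip x (T *ᵥ x)).re

theorem acc_bound (T : Matrix n n ℂ) (hT : Acc T) (W : Matrix n m ℂ)
    (hK : (T + W * Wᴴ).det ≠ 0) (x : m → ℂ) :
    nrm ((Wᴴ * (T + W * Wᴴ)⁻¹ * W) *ᵥ x) ≤ nrm x := by
  set K := T + W * Wᴴ with hKdef
  have hu : IsUnit K.det := isUnit_iff_ne_zero.mpr hK
  set y := K⁻¹ *ᵥ (W *ᵥ x) with hy
  have h1 : (Wᴴ * K⁻¹ * W) *ᵥ x = Wᴴ *ᵥ y := by
    rw [hy, mulVec_mulVec, mulVec_mulVec]
  have h2 : K *ᵥ y = W *ᵥ x := by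
    rw [hy, mulVec_mulVec, mul_nonsing_inv _ hu, one_mulVec]
  have h3 : ip y (K *ᵥ y) = ip y (T *ᵥ y) + ((nrm (Wᴴ *ᵥ y) ^ 2 : ℝ) : ℂ) := by
    rw [hKdef, add_mulVec, ← mulVec_mulVec, ← ip_self, ← ip_mulVec]
    unfold ip
    rw [dotProduct_add]
  have h4 : ip y (K *ᵥ y) = ip (Wᴴ *ᵥ y) x := by rw [h2, ip_mulVec]
  have h5 := congrArg Complex.re (h3.symm.trans h4)
  rw [Complex.add_re, Complex.ofReal_re] at h5
  have h6 := (Complex.re_le_norm _).trans (ip_le (Wᴴ *ᵥ y) x)
  have h7 := hT y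
  rw [h1]
  have h8 : nrm (Wᴴ *ᵥ y) ^ 2 ≤ nrm (Wᴴ *ᵥ y) * nrm x := by linarith
  rcases (nrm_nonneg (Wᴴ *ᵥ y)).eq_or_lt with h9 | h9
  · rw [← h9]
    exact nrm_nonneg x
  · rw [sq] at h8
    exact le_of_mul_le_mul_left h8 h9

/-- **The determinant inequality.** -/
theorem det_ineq (T : Matrix n n ℂ) (hT : Acc T) (W : Matrix n m ℂ) (M : Matrix m m ℂ)
    (hM : ∀ x, nrm (M *ᵥ x) ≤ nrm x) (hK : (T + W * Wᴴ).det ≠ 0) :
    ‖(T + W * M * Wᴴ).det‖ ≤ 3 ^ Fintype.card m * ‖(T + W * Wᴴ).det‖ := by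
  set K := T + W * Wᴴ with hKdef
  have hu : IsUnit K.det := isUnit_iff_ne_zero.mpr hK
  have h1 : T + W * M * Wᴴ = K * (1 + (K⁻¹ * W) * ((M - 1) * Wᴴ)) := by
    have h0 : K * (K⁻¹ * W * ((M - 1) * Wᴴ)) = W * ((M - 1) * Wᴴ) := by
      rw [Matrix.mul_assoc K⁻¹ W, ← Matrix.mul_assoc K K⁻¹, mul_nonsing_inv _ hu, Matrix.one_mul]
    rw [Matrix.mul_add, Matrix.mul_one, h0, hKdef, Matrix.sub_mul, Matrix.one_mul,
      Matrix.mul_sub, ← Matrix.mul_assoc]
    abel
  rw [h1, det_mul, det_one_add_mul_comm, norm_mul, mul_comm]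
  refine mul_le_mul_of_nonneg_right ?_ (norm_nonneg _)
  refine det_le _ 3 fun x => ?_
  have h2 : (1 + (M - 1) * Wᴴ * (K⁻¹ * W)) *ᵥ x =
      x + (M *ᵥ ((Wᴴ * K⁻¹ * W) *ᵥ x) - (Wᴴ * K⁻¹ * W) *ᵥ x) := by
    rw [add_mulVec, one_mulVec, Matrix.mul_assoc, ← Matrix.mul_assoc Wᴴ, ← mulVec_mulVec,
      sub_mulVec, one_mulVec]
  rw [h2]
  have h3 := acc_bound T hT W hK x
  rw [← hKdef] at h3
  have h4 := hM ((Wᴴ * K⁻¹ * W) *ᵥ x)
  have h5 := nrm_add x (M *ᵥ ((Wᴴ * K⁻¹ * W) *ᵥ x) - (Wᴴ * K⁻¹ * W) *ᵥ x)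
  have h6 := nrm_sub (M *ᵥ ((Wᴴ * K⁻¹ * W) *ᵥ x)) ((Wᴴ * K⁻¹ * W) *ᵥ x)
  linarith

/-- The determinant of `1 + ∑ w w*`. -/
theorem det_gram_le (W : Matrix n m ℂ) :
    ‖(1 + W * Wᴴ).det‖ ≤ ∏ j, (1 + nrm (fun i => W i j) ^ 2) := by
  classical
  have key : ∀ s : Finset m,
      ‖(1 + ∑ j ∈ s, vecMulVec (fun i => W i j) (star fun i => W i j)).det‖ ≤
        ∏ j ∈ s, (1 + nrm (fun i => W i j) ^ 2) ∧
      (∀ x, nrm x ^ 2 ≤
        (ip x ((1 + ∑ j ∈ s, vecMulVec (fun i => W i j) (star fun i => W i j)) *ᵥ x)).re) := by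
    intro s
    induction s using Finset.induction_on with
    | empty =>
      refine ⟨by simp, fun x => ?_⟩
      rw [Finset.sum_empty, add_zero, one_mulVec, ip_self, Complex.ofReal_re]
    | insert a s ha ih =>
      obtain ⟨ih1, ih2⟩ := ih
      set K := 1 + ∑ j ∈ s, vecMulVec (fun i => W i j) (star fun i => W i j) with hKdef
      set w : n → ℂ := fun i => W i a with hw
      have hE : 1 + ∑ j ∈ insert a s, vecMulVec (fun i => W i j) (star fun i => W i j) =
          K + vecMulVec w (star w) := by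
        rw [Finset.sum_insert ha, hKdef]
        abel
      have hK : K.det ≠ 0 := by
        intro h0
        obtain ⟨v, hv, hv2⟩ := exists_mulVec_eq_zero_iff.mpr h0
        have h1 := ih2 v
        rw [hv2] at h1
        have h2 : ip v (0 : n → ℂ) = 0 := by
          unfold ip
          exact dotProduct_zero _
        rw [h2, Complex.zero_re] at h1
        apply hv
        apply nrm_eq_zero
        nlinarith [nrm_nonneg v]
      have hu : IsUnit K.det := isUnit_iff_ne_zero.mpr hK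
      rw [hE]
      refine ⟨?_, fun x => ?_⟩
      · set y := K⁻¹ *ᵥ w with hy
        have h2 : K *ᵥ y = w := by
          rw [hy, mulVec_mulVec, mul_nonsing_inv _ hu, one_mulVec]
        have h3 := ih2 y
        rw [h2] at h3
        have h4 := (Complex.re_le_norm _).trans (ip_le y w)
        have h5 : nrm y ≤ nrm w := by
          rcases (nrm_nonneg y).eq_or_lt with h6 | h6
          · rw [← h6]
            exact nrm_nonneg w
          · have h7 : nrm y * nrm y ≤ nrm y * nrm w := by nlinarith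
            exact le_of_mul_le_mul_left h7 h6
        have h6 : (K + vecMulVec w (star w)).det = K.det * (1 + ip w y) := by
          have h7 : K + vecMulVec w (star w) =
              K * (1 + (replicateCol Unit y) * (replicateRow Unit (star w))) := by
            rw [Matrix.mul_add, Matrix.mul_one, ← Matrix.mul_assoc]
            congr 1
            rw [← replicateCol_mulVec, h2]
            ext i j
            simp [vecMulVec_apply, mul_apply]
          rw [h7, det_mul, det_one_add_mul_comm]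
          congr 1
          rw [det_unique]
          simp [Matrix.add_apply, mul_apply, ip, dotProduct]
        rw [h6, norm_mul, Finset.prod_insert ha, mul_comm]
        refine mul_le_mul ?_ ih1 (norm_nonneg _) (by positivity)
        refine (norm_add_le _ _).trans ?_
        rw [norm_one, ← hw]
        have h8 := ip_le w y
        nlinarith [nrm_nonneg w]
      · rw [add_mulVec]
        have h8 : ip x (K *ᵥ x + vecMulVec w (star w) *ᵥ x) =
            ip x (K *ᵥ x) + ip x (vecMulVec w (star w) *ᵥ x) := by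
          unfold ip
          rw [dotProduct_add]
        rw [h8, Complex.add_re]
        have h9 : 0 ≤ (ip x (vecMulVec w (star w) *ᵥ x)).re := by
          have h10 : vecMulVec w (star w) *ᵥ x = (ip w x) • w := by
            ext i
            simp [mulVec, vecMulVec_apply, dotProduct, ip, Finset.mul_sum, mul_comm, mul_left_comm]
          rw [h10]
          have h11 : ip x ((ip w x) • w) = (((‖ip w x‖ ^ 2 : ℝ)) : ℂ) := by
            have h12 : ip x w = star (ip w x) := by
              unfold ip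
              rw [star_dotProduct]
            unfold ip at h12 ⊢
            rw [dotProduct_smul, h12, smul_eq_mul, Complex.star_def, Complex.mul_conj,
              Complex.normSq_eq_norm_sq]
          rw [h11, Complex.ofReal_re]
          positivity
        linarith [ih2 x]
  have h1 : W * Wᴴ = ∑ j, vecMulVec (fun i => W i j) (star fun i => W i j) := by
    ext i k
    simp [mul_apply, Matrix.sum_apply, vecMulVec_apply]
  rw [h1]
  exact (key Finset.univ).1

end

end Pool.Agent.Helper168.SV
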