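import Mathlib
import Pool.Agent.Y820.LB.Bridge
import Pool.Agent.Helper168.SV.Det

/-!
# Perturbations of contractions on the unit circle
-/

set_option autoImplicit false
set_option linter.unusedSectionVars false

namespace Pool.Agent.Helper168.SV

open Matrix MeasureTheory Polynomial Filter
open Pool.Agent.H261R2.CM (ez D_norm_ez m1 mx1 ev1 toC mx1_intervalIntegrable D_ae_ne)
open Pool.Agent.Y820.LB (log_mahler integrable_log)
open Pool.Agent.W242.IM (ae_eval_ne)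

noncomputable section

variable {m n : Type*} [Fintype m] [Fintype n] [DecidableEq m] [DecidableEq n]

/-- contractions -/
def Ctr (B : Matrix n n ℂ) : Prop := ∀ x, nrm (B *ᵥ x) ≤ nrm x

theorem ip_add (x y z : n → ℂ) : ip x (y + z) = ip x y + ip x z := by
  unfold ip
  rw [dotProduct_add]

theorem ip_sub (x y z : n → ℂ) : ip x (y - z) = ip x y - ip x z := by
  unfold ip
  rw [dotProduct_sub]

theorem ip_smul (c : ℂ) (x y : n → ℂ) : ip x (c • y) = c * ip x y := by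
  unfold ip
  rw [dotProduct_smul, smul_eq_mul]

theorem acc_of_ctr (B : Matrix n n ℂ) (hB : Ctr B) (c : ℂ) (hc : ‖c‖ ≤ 1) : Acc (1 - c • B) := by
  intro x
  rw [sub_mulVec, one_mulVec, smul_mulVec, ip_sub, ip_smul, ip_self, Complex.sub_re,
    Complex.ofReal_re]
  have h1 := Complex.re_le_norm (c * ip x (B *ᵥ x))
  rw [norm_mul] at h1
  have h2 := ip_le x (B *ᵥ x)
  have h3 := hB x
  have h4 := nrm_nonneg x
  have h5 : nrm x * nrm (B *ᵥ x) ≤ nrm x * nrm x := mul_le_mul_of_nonneg_left h3 h4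
  have h6 : ‖c‖ * ‖ip x (B *ᵥ x)‖ ≤ 1 * (nrm x * nrm x) :=
    mul_le_mul hc (h2.trans h5) (norm_nonneg _) zero_le_one
  nlinarith

theorem gram_re (W : Matrix n m ℂ) (x : n → ℂ) :
    ip x ((1 + W * Wᴴ) *ᵥ x) = ((nrm x ^ 2 + nrm (Wᴴ *ᵥ x) ^ 2 : ℝ) : ℂ) := by
  rw [add_mulVec, one_mulVec, ip_add, ip_self, ← mulVec_mulVec, ip_mulVec, ip_self]
  push_cast
  rfl

theorem gram_det_ne (W : Matrix n m ℂ) : (1 + W * Wᴴ).det ≠ 0 := by
  intro h0
  obtain ⟨v, hv, hv2⟩ := exists_mulVec_eq_zero_iff.mpr h0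
  have h1 := gram_re W v
  rw [hv2] at h1
  have h2 : ip v (0 : n → ℂ) = 0 := dotProduct_zero _
  rw [h2] at h1
  have h3 : (0 : ℝ) = nrm v ^ 2 + nrm (Wᴴ *ᵥ v) ^ 2 := by exact_mod_cast h1
  apply hv
  apply nrm_eq_zero
  nlinarith [nrm_nonneg v, sq_nonneg (nrm (Wᴴ *ᵥ v)), sq_nonneg (nrm v)]

/-- the dominating polynomial -/
def NN (B : Matrix n n ℂ) (W : Matrix n m ℂ) : ℂ[X] :=
  ((X : ℂ[X]) • (1 + W * Wᴴ).map (C : ℂ →+* ℂ[X]) + (-B).map (C : ℂ →+* ℂ[X])).det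

theorem NN_eval (B : Matrix n n ℂ) (W : Matrix n m ℂ) (z : ℂ) :
    (NN B W).eval z = (z • (1 + W * Wᴴ) - B).det := by
  have h1 : (evalRingHom z).mapMatrix
      ((X : ℂ[X]) • (1 + W * Wᴴ).map (C : ℂ →+* ℂ[X]) + (-B).map (C : ℂ →+* ℂ[X])) =
      z • (1 + W * Wᴴ) - B := by
    ext i j
    simp [RingHom.mapMatrix_apply, sub_eq_add_neg]
    ring
  rw [← h1, ← RingHom.map_det]
  rfl

theorem NN_ne (B : Matrix n n ℂ) (W : Matrix n m ℂ) : NN B W ≠ 0 := by
  intro h0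
  have h1 := coeff_det_X_add_C_card (1 + W * Wᴴ) (-B)
  have h2 : (NN B W).coeff (Fintype.card n) = (1 + W * Wᴴ).det := h1
  rw [h0, coeff_zero] at h2
  exact gram_det_ne W h2.symm

theorem NN_mahler (B : Matrix n n ℂ) (hB : Ctr B) (W : Matrix n m ℂ) :
    (NN B W).mahlerMeasure = ‖(1 + W * Wᴴ).det‖ := by
  have h1 : (NN B W).coeff (Fintype.card n) = (1 + W * Wᴴ).det :=
    coeff_det_X_add_C_card (1 + W * Wᴴ) (-B)
  have h2 : (NN B W).natDegree ≤ Fintype.card n := natDegree_det_X_add_C_le (1 + W * Wᴴ) (-B)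
  have h3 : (NN B W).natDegree = Fintype.card n := by
    refine le_antisymm h2 (le_natDegree_of_ne_zero ?_)
    rw [h1]
    exact gram_det_ne W
  have h4 : (NN B W).leadingCoeff = (1 + W * Wᴴ).det := by
    rw [leadingCoeff, h3, h1]
  rw [mahlerMeasure_eq_leadingCoeff_mul_prod_roots, h4]
  have h5 : ((NN B W).roots.map fun a => max 1 ‖a‖) = (NN B W).roots.map fun _ => (1 : ℝ) := by
    refine Multiset.map_congr rfl fun z hz => ?_
    have h6 : (NN B W).eval z = 0 := (mem_roots (NN_ne B W)).mp hz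
    rw [NN_eval] at h6
    obtain ⟨v, hv, hv2⟩ := exists_mulVec_eq_zero_iff.mpr h6
    rw [sub_mulVec, sub_eq_zero, smul_mulVec] at hv2
    have h7 := congrArg (ip v) hv2
    rw [ip_smul, gram_re] at h7
    have h8 := congrArg norm h7
    rw [norm_mul, Complex.norm_real] at h8
    have h9 := ip_le v (B *ᵥ v)
    have h10 := hB v
    have h11 : 0 < nrm v := lt_of_le_of_ne (nrm_nonneg v) fun h7 => hv (nrm_eq_zero h7.symm)
    have h12 : nrm v ^ 2 ≤ ‖nrm v ^ 2 + nrm (Wᴴ *ᵥ v) ^ 2‖ := by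
      rw [Real.norm_of_nonneg (by positivity)]
      linarith [sq_nonneg (nrm (Wᴴ *ᵥ v))]
    have h13 : ‖z‖ * nrm v ^ 2 ≤ 1 * nrm v ^ 2 := by
      have h14 := mul_le_mul_of_nonneg_left h12 (norm_nonneg z)
      have h15 := mul_le_mul_of_nonneg_left h10 h11.le
      nlinarith
    exact max_eq_left (le_of_mul_le_mul_right h13 (by positivity))
  rw [h5]
  simp

/-- domination of a pair -/
theorem mx1_le_of_dom (P Q : ℤ[X]) (hP : P ≠ 0) (R : ℂ[X]) (hR : R ≠ 0) (k : ℝ) (hk : 0 < k)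
    (h1 : ∀ᵐ t : ℝ, ‖ev1 P t‖ ≤ k * ‖R.eval (ez t)‖)
    (h2 : ∀ᵐ t : ℝ, ‖ev1 Q t‖ ≤ k * ‖R.eval (ez t)‖) :
    mx1 P Q ≤ Real.log k + Real.log R.mahlerMeasure := by
  have h3 : mx1 P Q ≤ ∫ t in (0:ℝ)..1, (Real.log k + Real.log ‖R.eval (ez t)‖) := by
    unfold Pool.Agent.H261R2.CM.mx1
    refine intervalIntegral.integral_mono_ae zero_le_one (mx1_intervalIntegrable P Q hP)
      (intervalIntegrable_const.add (integrable_log R)) ?_
    filter_upwards [h1, h2, D_ae_ne P hP, ae_eval_ne R hR] with t h4 h5 h6 h7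
    have h8 : 0 < ‖ev1 P t‖ := norm_pos_iff.mpr h6
    have h9 : 0 < ‖R.eval (ez t)‖ := norm_pos_iff.mpr h7
    refine (Real.log_le_log (lt_max_of_lt_left h8) (max_le h4 h5)).trans ?_
    rw [Real.log_mul hk.ne' h9.ne']
  rw [intervalIntegral.integral_add intervalIntegrable_const (integrable_log R),
    ← log_mahler] at h3
  simpa using h3

/-- the main estimate at a point of the unit circle -/
theorem det_pert (B : Matrix n n ℂ) (hB : Ctr B) (W : Matrix n m ℂ) (M : Matrix m m ℂ)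
    (hM : ∀ x, nrm (M *ᵥ x) ≤ nrm x) (z : ℂ) (hz : ‖z‖ = 1) (hN : (NN B W).eval z ≠ 0) :
    ‖(z • (1 : Matrix n n ℂ) - B + W * M * Wᴴ).det‖ ≤
      3 ^ Fintype.card m * ‖(NN B W).eval z‖ := by
  have hz0 : z ≠ 0 := by
    rintro rfl
    rw [norm_zero] at hz
    exact zero_ne_one hz
  have hzi : ‖z⁻¹‖ = 1 := by rw [norm_inv, hz, inv_one]
  rw [NN_eval] at hN ⊢
  have h1 : z • (1 + W * Wᴴ) - B = z • ((1 - z⁻¹ • B) + W * Wᴴ) := by
    rw [smul_add, smul_add, smul_sub, smul_smul, mul_inv_cancel₀ hz0, one_smul]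
    abel
  have h2 : z • (1 : Matrix n n ℂ) - B + W * M * Wᴴ =
      z • ((1 - z⁻¹ • B) + W * (z⁻¹ • M) * Wᴴ) := by
    rw [smul_add, smul_sub, smul_smul, mul_inv_cancel₀ hz0, one_smul, Matrix.mul_smul,
      Matrix.smul_mul, smul_smul, mul_inv_cancel₀ hz0, one_smul]
  rw [h1, det_smul] at hN
  rw [h1, h2, det_smul, det_smul, norm_mul, norm_mul, norm_pow, hz, one_pow, one_mul, one_mul]
  refine det_ineq _ (acc_of_ctr B hB _ hzi.le) W _ (fun x => ?_) (right_ne_zero_of_mul hN)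
  rw [smul_mulVec, nrm_smul, hzi, one_mul]
  exact hM x

end

end Pool.Agent.Helper168.SV
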