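import Mathlib
import Pool.Agent.Helper168.SV.Pert

/-!
# Every matrix is a perturbation of a contraction
-/

set_option autoImplicit false
set_option linter.unusedSectionVars false

namespace Pool.Agent.Helper168.SV

open Matrix Polynomial
open scoped ComplexOrder

noncomputable section

variable {m n : Type*} [Fintype m] [Fintype n] [DecidableEq m] [DecidableEq n]

/-- the spectral decomposition of `A* A` -/
structure Sp (A Q : Matrix n n ℂ) (t : n → ℝ) : Prop where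
  left : Qᴴ * Q = 1
  right : Q * Qᴴ = 1
  nonneg : ∀ i, 0 ≤ t i
  eq : Aᴴ * A = Q * diagonal (fun i => (t i : ℂ)) * Qᴴ
  roots : (Aᴴ * A).charpoly.roots = Finset.univ.val.map (fun i => (t i : ℂ))

theorem exists_sp (A : Matrix n n ℂ) : ∃ (Q : Matrix n n ℂ) (t : n → ℝ), Sp A Q t := by
  have hS := isHermitian_conjTranspose_mul_self A
  refine ⟨(hS.eigenvectorUnitary : Matrix n n ℂ), hS.eigenvalues, ?_, ?_, ?_, ?_, ?_⟩
  · exact Unitary.coe_star_mul_self hS.eigenvectorUnitary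
  · exact Unitary.coe_mul_star_self hS.eigenvectorUnitary
  · intro i
    exact (posSemidef_conjTranspose_mul_self A).eigenvalues_nonneg i
  · have h := hS.spectral_theorem
    rw [Unitary.conjStarAlgAut_apply] at h
    exact h
  · exact hS.roots_charpoly_eq_eigenvalues

variable {A Q : Matrix n n ℂ} {t : n → ℝ}

theorem nrm_sq_mulVec (A : Matrix n n ℂ) (x : n → ℂ) :
    ((nrm (A *ᵥ x) ^ 2 : ℝ) : ℂ) = ip x ((Aᴴ * A) *ᵥ x) := by
  rw [← ip_self, ← mulVec_mulVec]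
  have h := ip_mulVec Aᴴ x (A *ᵥ x)
  rw [conjTranspose_conjTranspose] at h
  exact h.symm

theorem Sp.nrmQ (h : Sp A Q t) (x : n → ℂ) : nrm (Q *ᵥ x) = nrm x := by
  have h1 := nrm_sq_mulVec Q x
  rw [h.left, one_mulVec, ip_self] at h1
  have h2 : nrm (Q *ᵥ x) ^ 2 = nrm x ^ 2 := by exact_mod_cast h1
  exact (pow_left_inj₀ (nrm_nonneg _) (nrm_nonneg _) two_ne_zero).mp h2

theorem Sp.nrmQ' (h : Sp A Q t) (x : n → ℂ) : nrm (Qᴴ *ᵥ x) = nrm x := by
  have h1 := nrm_sq_mulVec Qᴴ x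
  rw [conjTranspose_conjTranspose, h.right, one_mulVec, ip_self] at h1
  have h2 : nrm (Qᴴ *ᵥ x) ^ 2 = nrm x ^ 2 := by exact_mod_cast h1
  exact (pow_left_inj₀ (nrm_nonneg _) (nrm_nonneg _) two_ne_zero).mp h2

/-- the norm of `A` on `Q c` -/
theorem Sp.nrmA (h : Sp A Q t) (c : n → ℂ) :
    nrm (A *ᵥ (Q *ᵥ c)) ^ 2 = ∑ i, t i * ‖c i‖ ^ 2 := by
  have h1 := nrm_sq_mulVec A (Q *ᵥ c)
  have h0 : (Aᴴ * A) *ᵥ (Q *ᵥ c) = Q *ᵥ (diagonal (fun i => (t i : ℂ)) *ᵥ c) := by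
    rw [h.eq, mulVec_mulVec, Matrix.mul_assoc (Q * _) Qᴴ Q, h.left, Matrix.mul_one, mulVec_mulVec]
  have h0' : ip (Q *ᵥ c) (Q *ᵥ (diagonal (fun i => (t i : ℂ)) *ᵥ c)) =
      ip c (diagonal (fun i => (t i : ℂ)) *ᵥ c) := by
    have h00 := ip_mulVec Qᴴ c (Q *ᵥ (diagonal (fun i => (t i : ℂ)) *ᵥ c))
    rw [conjTranspose_conjTranspose, mulVec_mulVec, h.left, one_mulVec] at h00
    exact h00.symm
  rw [h0, h0'] at h1
  have h2 : ip c (diagonal (fun i => (t i : ℂ)) *ᵥ c) = ((∑ i, t i * ‖c i‖ ^ 2 : ℝ) : ℂ) := by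
    unfold ip dotProduct
    push_cast
    refine Finset.sum_congr rfl fun i _ => ?_
    rw [mulVec_diagonal, Pi.star_apply, Complex.star_def, ← Complex.ofReal_pow,
      ← Complex.normSq_eq_norm_sq, ← Complex.mul_conj]
    ring
  rw [h2] at h1
  exact_mod_cast h1

/-- the coefficient that makes `A` a contraction -/
def phi (s : ℝ) : ℝ := if 1 < s then (Real.sqrt s)⁻¹ else 1

theorem phi_sq (s : ℝ) (hs : 0 ≤ s) : s * phi s ^ 2 ≤ 1 := by
  unfold phi
  split_ifs with h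
  · rw [inv_pow, Real.sq_sqrt hs, mul_inv_cancel₀ (by linarith)]
  · nlinarith

/-- the contraction -/
def BB (A Q : Matrix n n ℂ) (t : n → ℝ) : Matrix n n ℂ :=
  A * Q * diagonal (fun i => (phi (t i) : ℂ)) * Qᴴ

theorem Sp.ctr (h : Sp A Q t) : Ctr (BB A Q t) := by
  intro x
  have h1 : BB A Q t *ᵥ x = A *ᵥ (Q *ᵥ (diagonal (fun i => (phi (t i) : ℂ)) *ᵥ (Qᴴ *ᵥ x))) := by
    unfold BB
    rw [mulVec_mulVec, mulVec_mulVec, mulVec_mulVec]
  rw [h1, ← h.nrmQ' x, ← sq_le_sq₀ (nrm_nonneg _) (nrm_nonneg _), h.nrmA, nrm_sq]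
  refine Finset.sum_le_sum fun i _ => ?_
  rw [mulVec_diagonal, norm_mul, mul_pow, Complex.norm_real, Real.norm_eq_abs, sq_abs, ← mul_assoc]
  exact mul_le_of_le_one_left (sq_nonneg _) (phi_sq _ (h.nonneg i))

/-- the index set of the singular values larger than one -/
abbrev II (t : n → ℝ) : Type _ := {i : n // 1 < t i}

/-- the vectors of the perturbation; `e` is an additional vector -/
def WW (A Q : Matrix n n ℂ) (t : n → ℝ) (e : n → ℂ) : Matrix n (II t ⊕ II t ⊕ Unit) ℂ :=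
  fun j k => match k with
  | Sum.inl i => ((Real.sqrt (Real.sqrt (t i) - 1) / Real.sqrt (t i) : ℝ) : ℂ) * (A * Q) j i
  | Sum.inr (Sum.inl i) => ((Real.sqrt (Real.sqrt (t i) - 1) : ℝ) : ℂ) * Q j i
  | Sum.inr (Sum.inr _) => e j

/-- the coupling -/
def MM (t : n → ℝ) (a b : ℂ) : Matrix (II t ⊕ II t ⊕ Unit) (II t ⊕ II t ⊕ Unit) ℂ :=
  fun k l => match k, l with
  | Sum.inl i, Sum.inr (Sum.inl j) => if i = j then a else 0
  | Sum.inr (Sum.inr _), Sum.inr (Sum.inr _) => b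
  | _, _ => 0

theorem MM_ctr (t : n → ℝ) (a b : ℂ) (ha : ‖a‖ ≤ 1) (hb : ‖b‖ ≤ 1)
    (x : II t ⊕ II t ⊕ Unit → ℂ) : nrm (MM t a b *ᵥ x) ≤ nrm x := by
  rw [← sq_le_sq₀ (nrm_nonneg _) (nrm_nonneg _), nrm_sq, nrm_sq]
  simp only [Fintype.sum_sum_type]
  have h1 : ∀ i : II t, (MM t a b *ᵥ x) (Sum.inl i) = a * x (Sum.inr (Sum.inl i)) := by
    intro i
    simp [mulVec, dotProduct, MM, Fintype.sum_sum_type]
  have h2 : ∀ i : II t, (MM t a b *ᵥ x) (Sum.inr (Sum.inl i)) = 0 := by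
    intro i
    simp [mulVec, dotProduct, MM, Fintype.sum_sum_type]
  have h3 : ∀ i : Unit, (MM t a b *ᵥ x) (Sum.inr (Sum.inr i)) = b * x (Sum.inr (Sum.inr i)) := by
    intro i
    simp [mulVec, dotProduct, MM, Fintype.sum_sum_type]
  simp only [h1, h2, h3, norm_mul, mul_pow, norm_zero]
  have h4 : ∑ i : II t, ‖a‖ ^ 2 * ‖x (Sum.inr (Sum.inl i))‖ ^ 2 ≤
      ∑ i : II t, ‖x (Sum.inr (Sum.inl i))‖ ^ 2 :=
    Finset.sum_le_sum fun i _ => mul_le_of_le_one_left (sq_nonneg _)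
      (pow_le_one₀ (norm_nonneg _) ha)
  have h5 : ∑ i : Unit, ‖b‖ ^ 2 * ‖x (Sum.inr (Sum.inr i))‖ ^ 2 ≤
      ∑ i : Unit, ‖x (Sum.inr (Sum.inr i))‖ ^ 2 :=
    Finset.sum_le_sum fun i _ => mul_le_of_le_one_left (sq_nonneg _)
      (pow_le_one₀ (norm_nonneg _) hb)
  have h6 : (0 : ℝ) ≤ ∑ i : II t, ‖x (Sum.inl i)‖ ^ 2 := Finset.sum_nonneg fun i _ => sq_nonneg _
  have h7 : ∑ i : II t, (0 : ℝ) ^ 2 = 0 := by simp
  rw [h7]
  linarith

theorem Sp.decomp (h : Sp A Q t) (e : n → ℂ) (b : ℂ) :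
    WW A Q t e * MM t (-1) b * (WW A Q t e)ᴴ = BB A Q t - A + b • vecMulVec e (star e) := by
  have hA : A * Q * diagonal (fun _ => (1 : ℂ)) * Qᴴ = A := by
    rw [diagonal_one, Matrix.mul_one, Matrix.mul_assoc, h.right, Matrix.mul_one]
  have h1 : BB A Q t - A = A * Q * diagonal (fun i => ((phi (t i) - 1 : ℝ) : ℂ)) * Qᴴ := by
    have h11 : (diagonal (fun i => ((phi (t i) - 1 : ℝ) : ℂ)) : Matrix n n ℂ) =
        diagonal (fun i => (phi (t i) : ℂ)) - diagonal (fun _ => (1 : ℂ)) := by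
      rw [diagonal_sub]
      congr 1
      ext i
      push_cast
      rfl
    rw [h11, Matrix.mul_sub, Matrix.sub_mul, hA]
    rfl
  rw [h1]
  ext j k
  have h2 : (WW A Q t e * MM t (-1) b * (WW A Q t e)ᴴ) j k =
      ∑ i : II t, -(((Real.sqrt (Real.sqrt (t i) - 1) / Real.sqrt (t i) : ℝ) : ℂ) * (A * Q) j i) *
        star (((Real.sqrt (Real.sqrt (t i) - 1) : ℝ) : ℂ) * Q k i) + e j * b * star (e k) := by
    have h3 : ∀ l : II t, (WW A Q t e * MM t (-1) b) j (Sum.inl l) = 0 := by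
      intro l
      simp [mul_apply, MM, Fintype.sum_sum_type]
    have h4 : ∀ l : II t, (WW A Q t e * MM t (-1) b) j (Sum.inr (Sum.inl l)) =
        -(((Real.sqrt (Real.sqrt (t l) - 1) / Real.sqrt (t l) : ℝ) : ℂ) * (A * Q) j l) := by
      intro l
      simp [mul_apply, MM, WW, Fintype.sum_sum_type]
    have h5 : ∀ l : Unit, (WW A Q t e * MM t (-1) b) j (Sum.inr (Sum.inr l)) = e j * b := by
      intro l
      simp [mul_apply, MM, WW, Fintype.sum_sum_type]
    rw [mul_apply, Fintype.sum_sum_type, Fintype.sum_sum_type]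
    simp only [h3, h4, h5, zero_mul, Finset.sum_const_zero, zero_add, conjTranspose_apply, WW,
      Finset.univ_unique, Finset.sum_const, Finset.card_singleton, one_smul]
  rw [h2, Matrix.add_apply, Matrix.smul_apply, vecMulVec_apply, Pi.star_apply, smul_eq_mul]
  congr 1
  · rw [mul_apply]
    simp only [mul_diagonal, conjTranspose_apply]
    have h6 : ∀ i, i ∉ (Finset.univ.filter fun i => 1 < t i) →
        (A * Q) j i * ((phi (t i) - 1 : ℝ) : ℂ) * star (Q k i) = 0 := by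
      intro i hi
      rw [Finset.mem_filter, not_and] at hi
      have h7 := hi (Finset.mem_univ i)
      unfold phi
      rw [if_neg h7]
      simp
    rw [← Finset.sum_subset (Finset.subset_univ (Finset.univ.filter fun i => 1 < t i))
      (fun i _ hi => h6 i hi), ← Finset.sum_subtype (Finset.univ.filter fun i => 1 < t i)
      (p := fun i => 1 < t i) (by simp)
      (fun i => -(((Real.sqrt (Real.sqrt (t i) - 1) / Real.sqrt (t i) : ℝ) : ℂ) * (A * Q) j i) *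
        star (((Real.sqrt (Real.sqrt (t i) - 1) : ℝ) : ℂ) * Q k i))]
    refine Finset.sum_congr rfl fun i hi => ?_
    rw [Finset.mem_filter] at hi
    have h8 : 1 < Real.sqrt (t i) := by
      rw [Real.lt_sqrt zero_le_one]
      linarith [hi.2]
    have h9 : Real.sqrt (Real.sqrt (t i) - 1) * Real.sqrt (Real.sqrt (t i) - 1) =
        Real.sqrt (t i) - 1 := Real.mul_self_sqrt (by linarith)
    have h10 : phi (t i) - 1 =
        -(Real.sqrt (Real.sqrt (t i) - 1) / Real.sqrt (t i) * Real.sqrt (Real.sqrt (t i) - 1)) := by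
      unfold phi
      rw [if_pos hi.2, div_mul_eq_mul_div, h9]
      field_simp
      ring
    rw [h10, star_mul', Complex.star_def, Complex.conj_ofReal]
    push_cast
    ring
  · ring

theorem Sp.prod (h : Sp A Q t) (e : n → ℂ) (he : nrm e = 1) :
    ∏ k, (1 + nrm (fun j => WW A Q t e j k) ^ 2) = 2 * ∏ i : II t, t i := by
  have h1 : ∀ i : n, Q *ᵥ (Pi.single i 1) = fun j => Q j i := by
    intro i
    rw [mulVec_single_one]
    rfl
  have h2 : ∀ i : n, nrm (Pi.single i (1 : ℂ)) = 1 := by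
    intro i
    have h3 : nrm (Pi.single i (1 : ℂ)) ^ 2 = 1 := by
      rw [nrm_sq, Finset.sum_eq_single i]
      · simp
      · intro j _ hj
        simp [hj]
      · simp
    have h4 := nrm_nonneg (Pi.single i (1 : ℂ))
    nlinarith
  have h3 : ∀ i : n, nrm (fun j => Q j i) ^ 2 = 1 := by
    intro i
    rw [← h1, h.nrmQ, h2, one_pow]
  have h4 : ∀ i : n, nrm (fun j => (A * Q) j i) ^ 2 = t i := by
    intro i
    have h5 : (fun j => (A * Q) j i) = A *ᵥ (Q *ᵥ (Pi.single i 1)) := by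
      rw [mulVec_mulVec, mulVec_single_one]
      rfl
    rw [h5, h.nrmA, Finset.sum_eq_single i]
    · simp
    · intro j _ hj
      simp [hj]
    · simp
  have h5 : ∀ (c : ℝ) (v : n → ℂ), nrm (fun j => (c : ℂ) * v j) ^ 2 = c ^ 2 * nrm v ^ 2 := by
    intro c v
    have h6 : (fun j => (c : ℂ) * v j) = (c : ℂ) • v := rfl
    rw [h6, nrm_smul, mul_pow, Complex.norm_real, Real.norm_eq_abs, sq_abs]
  rw [Fintype.prod_sum_type, Fintype.prod_sum_type]
  simp only [WW, h5, h3, h4, mul_one]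
  rw [he, Fintype.prod_unique (fun _ : Unit => (1 + (1 : ℝ) ^ 2)), ← mul_assoc,
    ← Finset.prod_mul_distrib]
  have h6 : ∏ i : II t, ((1 + (Real.sqrt (Real.sqrt (t i) - 1) / Real.sqrt (t i)) ^ 2 * t i) *
      (1 + Real.sqrt (Real.sqrt (t i) - 1) ^ 2)) = ∏ i : II t, t i := by
    refine Finset.prod_congr rfl fun i _ => ?_
    have hi := i.2
    have h8 : 1 < Real.sqrt (t i) := by
      rw [Real.lt_sqrt zero_le_one]
      linarith
    have h9 : Real.sqrt (Real.sqrt (t i) - 1) ^ 2 = Real.sqrt (t i) - 1 :=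
      Real.sq_sqrt (by linarith)
    have h10 : Real.sqrt (t i) ^ 2 = t i := Real.sq_sqrt (by linarith)
    rw [div_pow, h9, h10, div_mul_cancel₀ _ (by linarith)]
    nlinarith
  rw [h6]
  ring

end

end Pool.Agent.Helper168.SV
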