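import Mathlib
import Pool.Agent.Y820.LB.Adapt2
import Pool.Agent.Helper168.SV.Svd

/-!
# The characteristic polynomial and the minors of an integer matrix on the unit circle
-/

set_option autoImplicit false
set_option linter.unusedSectionVars false

namespace Pool.Agent.Helper168.SV

open Matrix MeasureTheory Polynomial Filter
open Pool.Agent.H261R2.CM (ez D_norm_ez m1 mx1 ev1 toC mx1_intervalIntegrable D_ae_ne)
open Pool.Agent.W242.IM (ae_eval_ne)
open Pool.Agent.Y820.LB (minor minor_eval' det_eval' pencil_one pencil)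

noncomputable section

variable {n : ℕ}

/-- the complex matrix -/
abbrev cm (A : Matrix (Fin n) (Fin n) ℤ) : Matrix (Fin n) (Fin n) ℂ := A.map (Int.castRingHom ℂ)

/-- the dominating polynomial for the index `i` -/
def Nd (A : Matrix (Fin n) (Fin n) ℤ) (Q : Matrix (Fin n) (Fin n) ℂ) (t : Fin n → ℝ)
    (i : Fin n) : ℂ[X] :=
  NN (BB (cm A) Q t) (WW (cm A) Q t (Pi.single i 1))

variable {A : Matrix (Fin n) (Fin n) ℤ} {Q : Matrix (Fin n) (Fin n) ℂ} {t : Fin n → ℝ}

theorem nrm_single (i : Fin n) : nrm (Pi.single i (1 : ℂ)) = 1 := by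
  have h3 : nrm (Pi.single i (1 : ℂ)) ^ 2 = 1 := by
    rw [nrm_sq, Finset.sum_eq_single i]
    · simp
    · intro j _ hj
      simp [hj]
    · simp
  have h4 := nrm_nonneg (Pi.single i (1 : ℂ))
  nlinarith

theorem pert_pt (h : Sp (cm A) Q t) (i : Fin n) (b : ℂ) (hb : ‖b‖ ≤ 1) (z : ℂ) (hz : ‖z‖ = 1)
    (hN : (Nd A Q t i).eval z ≠ 0) :
    ‖(z • (1 : Matrix (Fin n) (Fin n) ℂ) - cm A +
      b • vecMulVec (Pi.single i (1 : ℂ)) (star (Pi.single i (1 : ℂ)))).det‖ ≤
      3 ^ (2 * Fintype.card (II t) + 1) * ‖(Nd A Q t i).eval z‖ := by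
  have h1 := det_pert (BB (cm A) Q t) h.ctr (WW (cm A) Q t (Pi.single i 1)) (MM t (-1) b)
    (MM_ctr t (-1) b (by simp) hb) z hz hN
  rw [h.decomp] at h1
  have h2 : Fintype.card (II t ⊕ II t ⊕ Unit) = 2 * Fintype.card (II t) + 1 := by
    rw [Fintype.card_sum, Fintype.card_sum, Fintype.card_unit]
    ring
  rw [h2] at h1
  have h3 : z • (1 : Matrix (Fin n) (Fin n) ℂ) - BB (cm A) Q t + (BB (cm A) Q t - cm A +
      b • vecMulVec (Pi.single i (1 : ℂ)) (star (Pi.single i (1 : ℂ)))) =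
      z • (1 : Matrix (Fin n) (Fin n) ℂ) - cm A +
      b • vecMulVec (Pi.single i (1 : ℂ)) (star (Pi.single i (1 : ℂ))) := by abel
  rw [h3] at h1
  exact h1

theorem det_add_single (M : Matrix (Fin n) (Fin n) ℂ) (i : Fin n) :
    (M + (1 : ℂ) • vecMulVec (Pi.single i (1 : ℂ)) (star (Pi.single i (1 : ℂ)))).det =
      M.det + M.adjugate i i := by
  have h1 : M + (1 : ℂ) • vecMulVec (Pi.single i (1 : ℂ)) (star (Pi.single i (1 : ℂ))) =
      M.updateRow i (M i + Pi.single i 1) := by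
    ext j k
    rw [Matrix.add_apply, one_smul, vecMulVec_apply, Pi.star_apply]
    by_cases hj : j = i
    · subst hj
      by_cases hk : k = j
      · subst hk
        simp
      · simp [hk]
    · simp [hj]
  rw [h1, det_updateRow_add, updateRow_eq_self, adjugate_apply]

theorem chi_eval (A : Matrix (Fin n) (Fin n) ℤ) (z : ℂ) :
    (toC A.charpoly).eval z = (z • (1 : Matrix (Fin n) (Fin n) ℂ) - cm A).det := by
  have hX : (toC X) = X := by simp [toC]
  have h4 := det_eval' X 0 A z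
  rw [pencil_one, hX, eval_X, pow_zero, one_smul] at h4
  exact h4

theorem minor_eval1 (A : Matrix (Fin n) (Fin n) ℤ) (i : Fin n) (z : ℂ) :
    (toC (minor X 0 A i)).eval z =
      (z • (1 : Matrix (Fin n) (Fin n) ℂ) - cm A).adjugate i i := by
  have hX : (toC X) = X := by simp [toC]
  rw [minor_eval', hX, eval_X, pow_zero, one_smul]

/-- the bound for the characteristic polynomial on the circle -/
theorem chi_le (h : Sp (cm A) Q t) (i : Fin n) (z : ℂ) (hz : ‖z‖ = 1)
    (hN : (Nd A Q t i).eval z ≠ 0) :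
    ‖(toC A.charpoly).eval z‖ ≤
      3 ^ (2 * Fintype.card (II t) + 1) * ‖(Nd A Q t i).eval z‖ := by
  have h1 := pert_pt h i 0 (by simp) z hz hN
  rw [zero_smul, add_zero] at h1
  rw [chi_eval]
  exact h1

/-- the bound for the minors on the circle -/
theorem minor_le (h : Sp (cm A) Q t) (i : Fin n) (z : ℂ) (hz : ‖z‖ = 1)
    (hN : (Nd A Q t i).eval z ≠ 0) :
    ‖(toC (minor X 0 A i)).eval z‖ ≤
      2 * 3 ^ (2 * Fintype.card (II t) + 1) * ‖(Nd A Q t i).eval z‖ := by
  have h1 := pert_pt h i 1 (by simp) z hz hN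
  rw [det_add_single] at h1
  have h2 := chi_le h i z hz hN
  rw [chi_eval] at h2
  rw [minor_eval1]
  set D := (z • (1 : Matrix (Fin n) (Fin n) ℂ) - cm A).det
  set a := (z • (1 : Matrix (Fin n) (Fin n) ℂ) - cm A).adjugate i i
  have h3 : ‖a‖ ≤ ‖D + a‖ + ‖D‖ := by
    have h4 : a = (D + a) - D := by ring
    conv_lhs => rw [h4]
    exact norm_sub_le _ _
  linarith

theorem Nd_mahler (h : Sp (cm A) Q t) (i : Fin n) :
    (Nd A Q t i).mahlerMeasure ≤ 2 * ∏ j : II t, t j := by
  unfold Nd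
  rw [NN_mahler _ h.ctr]
  refine (det_gram_le _).trans ?_
  rw [h.prod _ (nrm_single i)]

/-- the pair formed by the characteristic polynomial and a minor -/
theorem mx1_le_sp (h : Sp (cm A) Q t) (i : Fin n) :
    mx1 A.charpoly (minor X 0 A i) ≤
      Real.log (2 * 3 ^ (2 * Fintype.card (II t) + 1)) + Real.log (2 * ∏ j : II t, t j) := by
  have hN : Nd A Q t i ≠ 0 := NN_ne _ _
  have hk : (0 : ℝ) < 2 * 3 ^ (2 * Fintype.card (II t) + 1) := by positivity
  have h1 := mx1_le_of_dom A.charpoly (minor X 0 A i) (Matrix.charpoly_monic A).ne_zero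
    (Nd A Q t i) hN (2 * 3 ^ (2 * Fintype.card (II t) + 1)) hk ?_ ?_
  · refine h1.trans (add_le_add_right (Real.log_le_log ?_ (Nd_mahler h i)) _)
    exact Polynomial.mahlerMeasure_pos_of_ne_zero hN
  · filter_upwards [ae_eval_ne _ hN] with τ hτ
    have h2 := chi_le h i (ez τ) (D_norm_ez τ) hτ
    unfold ev1
    refine h2.trans ?_
    have h3 : (0 : ℝ) ≤ 3 ^ (2 * Fintype.card (II t) + 1) * ‖(Nd A Q t i).eval (ez τ)‖ := by
      positivity
    linarith
  · filter_upwards [ae_eval_ne _ hN] with τ hτ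
    exact minor_le h i (ez τ) (D_norm_ez τ) hτ

end

end Pool.Agent.Helper168.SV
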