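import Mathlib
import Pool.Agent.Helper168.SV.Minor

/-!
# The number of large singular values of an integer matrix
-/

set_option autoImplicit false
set_option linter.unusedSectionVars false

namespace Pool.Agent.Helper168.SV

open Matrix MeasureTheory Polynomial Filter
open Pool.Agent.H261R2.CM (ez D_norm_ez m1 mx1 ev1 toC mx1_intervalIntegrable D_ae_ne D_toC_ne)
open Pool.Agent.Y820.LB (minor minor_eval' det_eval' pencil_one pencil)

noncomputable section

variable {n : ℕ}

/-- the measure of the Gram matrix -/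
def gm (A : Matrix (Fin n) (Fin n) ℤ) : ℝ := m1 (Aᵀ * A).charpoly

variable {A : Matrix (Fin n) (Fin n) ℤ} {Q : Matrix (Fin n) (Fin n) ℂ} {t : Fin n → ℝ}

theorem cm_gram (A : Matrix (Fin n) (Fin n) ℤ) : cm (Aᵀ * A) = (cm A)ᴴ * cm A := by
  unfold cm
  rw [Matrix.map_mul]
  congr 1
  ext i j
  simp

theorem toC_gram (A : Matrix (Fin n) (Fin n) ℤ) :
    toC (Aᵀ * A).charpoly = ((cm A)ᴴ * cm A).charpoly := by
  unfold toC
  rw [← Matrix.charpoly_map]
  exact congrArg Matrix.charpoly (cm_gram A)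

theorem roots_gram (h : Sp (cm A) Q t) :
    (toC (Aᵀ * A).charpoly).roots = Finset.univ.val.map (fun i => (t i : ℂ)) := by
  rw [toC_gram, h.roots]

theorem gm_eq (h : Sp (cm A) Q t) : gm A = ∏ i, max 1 (t i) := by
  unfold gm m1
  rw [mahlerMeasure_eq_leadingCoeff_mul_prod_roots, roots_gram h, toC_gram,
    (Matrix.charpoly_monic _).leadingCoeff, norm_one, one_mul, Multiset.map_map]
  refine Finset.prod_congr rfl fun i _ => ?_
  rw [Function.comp_apply, Complex.norm_real, Real.norm_of_nonneg (h.nonneg i)]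

theorem gm_prod (h : Sp (cm A) Q t) : gm A = ∏ i : II t, t i := by
  rw [gm_eq h]
  have h6 : ∀ i, i ∉ (Finset.univ.filter fun i => 1 < t i) → max 1 (t i) = 1 := by
    intro i hi
    rw [Finset.mem_filter, not_and] at hi
    exact max_eq_left (not_lt.mp (hi (Finset.mem_univ i)))
  rw [← Finset.prod_subset (Finset.subset_univ (Finset.univ.filter fun i => 1 < t i))
      (fun i _ hi => h6 i hi), ← Finset.prod_subtype (Finset.univ.filter fun i => 1 < t i)
      (p := fun i => 1 < t i) (by simp) (fun i => t i)]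
  refine Finset.prod_congr rfl fun i hi => ?_
  rw [Finset.mem_filter] at hi
  exact max_eq_right hi.2.le

/-- the distance to one -/
def g1 (z : ℂ) : ℝ := if z = 1 then 1 else ‖1 - z‖

theorem prod_g1 (p : ℤ[X]) (hp : p.Monic) : 1 ≤ ((toC p).roots.map g1).prod := by
  obtain ⟨q, hq⟩ := pow_rootMultiplicity_dvd p (1 : ℤ)
  set k := p.rootMultiplicity (1 : ℤ) with hk
  have hq1 : q.eval 1 ≠ 0 := by
    intro h0
    have h1 : (X - C (1 : ℤ)) ∣ q := dvd_iff_isRoot.mpr h0
    obtain ⟨r, hr⟩ := h1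
    have h2 : (X - C (1 : ℤ)) ^ (k + 1) ∣ p := by
      refine ⟨r, ?_⟩
      rw [hq, hr, pow_succ]
      ring
    have h3 := (le_rootMultiplicity_iff hp.ne_zero).mpr h2
    omega
  have hqm : q.Monic := by
    have h1 : ((X - C (1 : ℤ)) ^ k * q).Monic := by
      rw [← hq]
      exact hp
    exact ((monic_X_sub_C 1).pow k).of_mul_monic_left h1
  have h1 : toC p = (X - C (1 : ℂ)) ^ k * toC q := by
    conv_lhs => rw [hq]
    unfold toC
    rw [Polynomial.map_mul, Polynomial.map_pow, Polynomial.map_sub, map_X, map_C]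
    simp
  have hq0 : toC q ≠ 0 := D_toC_ne q hqm.ne_zero
  have hX0 : (X - C (1 : ℂ)) ^ k ≠ 0 := pow_ne_zero _ (X_sub_C_ne_zero 1)
  have hqcm : (toC q).Monic := by
    unfold toC
    exact hqm.map _
  rw [h1, roots_mul (mul_ne_zero hX0 hq0), Multiset.map_add, Multiset.prod_add, roots_pow,
    roots_X_sub_C, Multiset.map_nsmul, Multiset.prod_nsmul, Multiset.map_singleton,
    Multiset.prod_singleton]
  have h2 : g1 1 = 1 := by
    unfold g1
    rw [if_pos rfl]
  rw [h2, one_pow, one_mul]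
  have h3 : (toC q).eval 1 = ((q.eval 1 : ℤ) : ℂ) := by
    unfold toC
    rw [eval_map]
    have h4 := Polynomial.hom_eval₂ q (RingHom.id ℤ) (Int.castRingHom ℂ) 1
    simp only [eval₂_id, map_one, RingHom.comp_id] at h4
    rw [← h4]
    rfl
  have h4 : ((toC q).roots.map g1) = ((toC q).roots.map fun z => ‖1 - z‖) := by
    refine Multiset.map_congr rfl fun z hz => ?_
    unfold g1
    rw [if_neg]
    rintro rfl
    have h5 : (toC q).eval 1 = 0 := (mem_roots hq0).mp hz
    rw [h3] at h5
    exact hq1 (by exact_mod_cast h5)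
  have h5 : (toC q).eval 1 = ((toC q).roots.map fun z => 1 - z).prod := by
    have h6 := (IsAlgClosed.splits (toC q)).eq_prod_roots
    rw [hqcm.leadingCoeff, C_1, one_mul] at h6
    conv_lhs => rw [h6]
    rw [eval_multiset_prod, Multiset.map_map]
    congr 1
    refine Multiset.map_congr rfl fun z _ => ?_
    simp
  have h6 : ((toC q).roots.map fun z => ‖1 - z‖).prod = ‖(toC q).eval 1‖ := by
    rw [h5]
    have h7 := Multiset.prod_hom ((toC q).roots.map fun z => 1 - z) (normHom : ℂ →*₀ ℝ)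
    rw [Multiset.map_map] at h7
    exact h7
  rw [h4, h6, h3, Complex.norm_intCast]
  exact_mod_cast Int.one_le_abs hq1

theorem two_pow_le (h : Sp (cm A) Q t) : (2 : ℝ) ^ Fintype.card (II t) ≤ gm A := by
  have h1 := prod_g1 (Aᵀ * A).charpoly (Matrix.charpoly_monic _)
  rw [roots_gram h, Multiset.map_map] at h1
  have h1' : 1 ≤ ∏ i, g1 (t i : ℂ) := h1
  have h2 : ∀ i, g1 (t i : ℂ) * (if 1 < t i then 4 else 1) ≤ (max 1 (t i)) ^ 2 := by
    intro i
    have h3 := h.nonneg i
    unfold g1
    split_ifs with h4 h5 h5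
    · have h6 : t i = 1 := by exact_mod_cast h4
      linarith
    · rw [one_mul]
      have : (1 : ℝ) ≤ max 1 (t i) := le_max_left _ _
      nlinarith
    · have h6 : ‖1 - (t i : ℂ)‖ = t i - 1 := by
        rw [← Complex.ofReal_one, ← Complex.ofReal_sub, Complex.norm_real, Real.norm_eq_abs,
          abs_of_neg (by linarith)]
        ring
      rw [h6, max_eq_right h5.le]
      nlinarith [sq_nonneg (t i - 2)]
    · have h6 : ‖1 - (t i : ℂ)‖ = 1 - t i := by
        rw [← Complex.ofReal_one, ← Complex.ofReal_sub, Complex.norm_real, Real.norm_eq_abs,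
          abs_of_nonneg (by linarith)]
      rw [h6]
      have : (1 : ℝ) ≤ max 1 (t i) := le_max_left _ _
      nlinarith
  have h3 : ∏ i, (g1 (t i : ℂ) * (if 1 < t i then (4 : ℝ) else 1)) ≤ ∏ i, (max 1 (t i)) ^ 2 := by
    refine Finset.prod_le_prod (fun i _ => ?_) fun i _ => h2 i
    unfold g1
    split_ifs <;> positivity
  rw [Finset.prod_mul_distrib, Finset.prod_pow, ← gm_eq h, Finset.prod_ite, Finset.prod_const,
    Finset.prod_const, one_pow, mul_one] at h3
  have h4 : (Finset.univ.filter fun i => 1 < t i).card = Fintype.card (II t) :=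
    (Fintype.card_subtype _).symm
  rw [h4] at h3
  have h5 : (4 : ℝ) ^ Fintype.card (II t) ≤ gm A ^ 2 := by
    have h6 : (0 : ℝ) < 4 ^ Fintype.card (II t) := by positivity
    nlinarith
  have h6 : (0 : ℝ) ≤ gm A := by
    rw [gm_eq h]
    exact Finset.prod_nonneg fun i _ => le_max_of_le_left zero_le_one
  have h7 : ((2 : ℝ) ^ Fintype.card (II t)) ^ 2 ≤ gm A ^ 2 := by
    rw [← pow_mul, mul_comm, pow_mul]
    norm_num
    exact h5
  exact (pow_le_pow_iff_left₀ (by positivity) h6 two_ne_zero).mp h7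

theorem one_le_gm (A : Matrix (Fin n) (Fin n) ℤ) : 1 ≤ gm A := by
  obtain ⟨Q, t, h⟩ := exists_sp (cm A)
  exact (one_le_pow₀ one_le_two).trans (two_pow_le h)

/-- **The pair formed by the characteristic polynomial and a diagonal minor.** -/
theorem mx1_minor_le (A : Matrix (Fin n) (Fin n) ℤ) (i : Fin n) :
    mx1 A.charpoly (minor X 0 A i) ≤ Real.log 12 + 5 * Real.log (gm A) := by
  obtain ⟨Q, t, h⟩ := exists_sp (cm A)
  have h1 := mx1_le_sp h i
  rw [← gm_prod h] at h1
  have h2 := two_pow_le h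
  have h3 := one_le_gm A
  set r := Fintype.card (II t)
  have h4 : (2 * 3 ^ (2 * r + 1) : ℝ) ≤ 6 * gm A ^ 4 := by
    have h5 : (3 : ℝ) ^ (2 * r + 1) = 3 * 9 ^ r := by
      rw [pow_succ, pow_mul]
      norm_num
      ring
    have h6 : (9 : ℝ) ^ r ≤ 16 ^ r := pow_le_pow_left₀ (by norm_num) (by norm_num) r
    have h7 : (16 : ℝ) ^ r = (2 ^ r) ^ 4 := by
      rw [← pow_mul, mul_comm, pow_mul]
      norm_num
    have h8 : ((2 : ℝ) ^ r) ^ 4 ≤ gm A ^ 4 := pow_le_pow_left₀ (by positivity) h2 4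
    rw [h5]
    linarith
  have h5 : Real.log (2 * 3 ^ (2 * r + 1)) ≤ Real.log (6 * gm A ^ 4) :=
    Real.log_le_log (by positivity) h4
  have h6 : (0 : ℝ) < gm A := by linarith
  rw [Real.log_mul (x := 6) (by norm_num) (by positivity), Real.log_pow] at h5
  rw [Real.log_mul two_ne_zero h6.ne'] at h1
  have h7 : Real.log 12 = Real.log 6 + Real.log 2 := by
    rw [← Real.log_mul (by norm_num) (by norm_num)]
    norm_num
  push_cast at h5
  linarith

end

end Pool.Agent.Helper168.SV
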