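import Mathlib
import Pool.Agent.R328.PH
import Pool.Agent.Y820.LB.Avg
import Pool.Agent.Helper168.SV.Integral

/-!
# Lower bounds for the measure of an integer matrix in terms of its singular values
-/

set_option autoImplicit false
set_option linter.unusedSectionVars false

namespace Pool.Agent.Helper168.SV

open Matrix MeasureTheory Polynomial Filter
open Pool.Agent.H261R2.CM (ez D_norm_ez m1 mx1 ev1 toC mx1_intervalIntegrable D_ae_ne D_toC_ne
  gap_one D_circleAverage)
open Pool.Agent.W242.IM (ae_eval_ne)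
open Pool.Agent.Y820.LB (minor minor_one toC_mul m1_mul one_le_m1 m1_cases m1_gt_of_root
  exists_minor_one log_mahler integrable_log)

noncomputable section

theorem mx1_mul (d A B : ℤ[X]) (hd : d ≠ 0) (hA : A ≠ 0) :
    mx1 (d * A) (d * B) = Real.log (m1 d) + mx1 A B := by
  have h1 : Real.log (m1 d) = ∫ t in (0:ℝ)..1, Real.log ‖(toC d).eval (ez t)‖ :=
    log_mahler (toC d)
  rw [h1]
  unfold Pool.Agent.H261R2.CM.mx1
  rw [← intervalIntegral.integral_add (integrable_log (toC d)) (mx1_intervalIntegrable A B hA)]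
  refine intervalIntegral.integral_congr_ae ?_
  filter_upwards [D_ae_ne d hd, D_ae_ne A hA] with t h2 h3 _
  have h4 : ∀ C D : ℤ[X], ev1 (C * D) t = ev1 C t * ev1 D t := by
    intro C D
    simp [ev1, toC, Polynomial.map_mul]
  have h5 : 0 < ‖ev1 d t‖ := norm_pos_iff.mpr h2
  have h6 : 0 < max ‖ev1 A t‖ ‖ev1 B t‖ := lt_max_of_lt_left (norm_pos_iff.mpr h3)
  rw [h4, h4, norm_mul, norm_mul, ← mul_max_of_nonneg _ _ h5.le, Real.log_mul h5.ne' h6.ne']
  rfl

/-- the uniform bound -/
theorem gap_gram (K : ℝ) : ∃ μ : ℝ, 1 < μ ∧ ∀ (n : ℕ) (A : Matrix (Fin n) (Fin n) ℤ),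
    gm A ≤ K → m1 A.charpoly = 1 ∨ μ ≤ m1 A.charpoly := by
  obtain ⟨c, hc, h⟩ := gap_one (Real.log 12 + 5 * Real.log K)
  refine ⟨min 2 c, lt_min (by norm_num) hc, fun n A hK => ?_⟩
  by_cases hM : m1 A.charpoly = 1
  · exact Or.inl hM
  right
  have hmon := Matrix.charpoly_monic A
  rcases m1_cases _ hmon.ne_zero hM with h1 | ⟨z, hz, hz1⟩
  · exact (min_le_left _ _).trans h1
  refine (min_le_right _ _).trans ?_
  obtain ⟨i, r, hPr, hQr⟩ := exists_minor_one A z hz
  have hQ : minor X 0 A i ≠ 0 := (minor_one A i).1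
  obtain ⟨A', B', d, h6, h1, h2⟩ :=
    UniqueFactorizationMonoid.exists_reduced_factors A.charpoly hmon.ne_zero (minor X 0 A i)
  have hd0 : d ≠ 0 := by
    rintro rfl
    exact hmon.ne_zero (by rw [← h1, zero_mul])
  have hA0 : A' ≠ 0 := by
    rintro rfl
    exact hmon.ne_zero (by rw [← h1, mul_zero])
  have hB0 : B' ≠ 0 := by
    rintro rfl
    exact hQ (by rw [← h2, mul_zero])
  have hz' : (toC A').eval z = 0 := by
    by_contra h9
    apply hQr
    have h11 : (X - C z) ^ r ∣ toC d * toC A' := by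
      rw [← toC_mul, h1]
      exact hPr
    have h13 : IsCoprime ((X - C z) ^ r) (toC A') := by
      refine IsCoprime.pow_left ?_
      exact (EuclideanDomain.dvd_or_coprime _ _ (irreducible_X_sub_C z)).resolve_left fun h14 =>
        h9 (dvd_iff_isRoot.mp h14)
    rw [← h2, toC_mul]
    exact (h13.dvd_of_dvd_mul_right h11).mul_right _
  have h9 := m1_gt_of_root A' hA0 z hz' hz1
  have h10 := mx1_minor_le A i
  rw [← h1, ← h2, mx1_mul d A' B' hd0 hA0] at h10
  have h11 : 0 ≤ Real.log (m1 d) := Real.log_nonneg (one_le_m1 hd0)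
  have h12 : Real.log (gm A) ≤ Real.log K :=
    Real.log_le_log (by linarith [one_le_gm A]) hK
  have h13 : m1 A' ≤ m1 A.charpoly := by
    rw [← h1, m1_mul]
    have := one_le_m1 hd0
    nlinarith
  rcases h A' B' hA0 hB0 h6 (by linarith) with h14 | h14
  · exact absurd h14 h9.ne'
  · exact h14.trans h13

theorem log12_le : Real.log 12 ≤ 5 / 2 := by
  have h1 : Real.log 144 ≤ 5 := by
    rw [Real.log_le_iff_le_exp (by norm_num)]
    have h2 : Real.exp 5 = Real.exp 1 ^ 5 := by
      rw [← Real.exp_nat_mul]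
      norm_num
    rw [h2]
    have h3 := Real.exp_one_gt_d9
    have h4 : (2.7182818283 : ℝ) ^ 5 ≤ Real.exp 1 ^ 5 :=
      pow_le_pow_left₀ (by norm_num) h3.le 5
    refine le_trans ?_ h4
    norm_num
  have h5 : Real.log 144 = 2 * Real.log 12 := by
    have h6 : (144 : ℝ) = 12 ^ 2 := by norm_num
    rw [h6, Real.log_pow]
    norm_num
  linarith

/-- the explicit bound for irreducible characteristic polynomials -/
theorem irr_gram : ∃ c : ℝ, 0 < c ∧ ∀ (n : ℕ) (A : Matrix (Fin n) (Fin n) ℤ),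
    Irreducible A.charpoly → 1 < m1 A.charpoly →
    c / (1 + Real.log (gm A)) ^ 3 ≤ Real.log (m1 A.charpoly) := by
  obtain ⟨c, hc, h⟩ := Pool.Agent.R328.pair_main
  refine ⟨c / 1000, by positivity, fun n A hirr hM => ?_⟩
  have hn : 0 < n := by
    rcases Nat.eq_zero_or_pos n with rfl | hn
    · exfalso
      apply hirr.not_isUnit
      have h1 : A.charpoly.natDegree = 0 := by
        rw [Matrix.charpoly_natDegree_eq_dim, Fintype.card_fin]
      have h2 := (Matrix.charpoly_monic A).natDegree_eq_zero.mp h1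
      rw [h2]
      exact isUnit_one
    · exact hn
  set i : Fin n := ⟨0, hn⟩
  obtain ⟨hQ0, hQd⟩ := minor_one A i
  have hdeg : A.charpoly.natDegree = n := by
    rw [Matrix.charpoly_natDegree_eq_dim, Fintype.card_fin]
  have hndvd : ¬ A.charpoly ∣ minor X 0 A i := by
    intro h1
    have := natDegree_le_of_dvd h1 hQ0
    omega
  have h1 := h A.charpoly (minor X 0 A i) 1 one_pos hirr hndvd hM
  have h2 : Real.circleAverage (Pool.Agent.R328.PM A.charpoly (minor X 0 A i) 1) 0 1 =
      mx1 A.charpoly (minor X 0 A i) := by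
    rw [D_circleAverage]
    unfold Pool.Agent.H261R2.CM.mx1
    refine intervalIntegral.integral_congr fun t _ => ?_
    unfold Pool.Agent.R328.PM
    have h3 : ∀ P : ℤ[X], aeval (ez t) P = ev1 P t := by
      intro P
      unfold Pool.Agent.H261R2.CM.ev1 Pool.Agent.H261R2.CM.toC
      rw [eval_map, aeval_def]
      rfl
    simp only [h3, pow_one]
  rw [h2, hdeg, Nat.cast_one, one_mul, div_one] at h1
  have h3 := mx1_minor_le A i
  have h4 := one_le_gm A
  have h5 : 0 ≤ Real.log (gm A) := Real.log_nonneg h4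
  have hn' : (0 : ℝ) < n := by exact_mod_cast hn
  have h6 : ((minor X 0 A i).natDegree : ℝ) / n ≤ 1 := by
    rw [div_le_one hn']
    exact_mod_cast hQd.le
  have h6' : (0 : ℝ) ≤ ((minor X 0 A i).natDegree : ℝ) / n := by positivity
  have h7 : 0 ≤ mx1 A.charpoly (minor X 0 A i) := by
    have h8 : Real.log (m1 A.charpoly) ≤ mx1 A.charpoly (minor X 0 A i) := by
      have h9 : Real.log (m1 A.charpoly) =
          ∫ t in (0:ℝ)..1, Real.log ‖(toC A.charpoly).eval (ez t)‖ := log_mahler _
      rw [h9]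
      unfold Pool.Agent.H261R2.CM.mx1
      refine intervalIntegral.integral_mono_ae zero_le_one (integrable_log _)
        (mx1_intervalIntegrable _ _ hirr.ne_zero) ?_
      filter_upwards [D_ae_ne A.charpoly hirr.ne_zero] with t ht
      exact Real.log_le_log (norm_pos_iff.mpr ht) (le_max_left _ _)
    exact (Real.log_nonneg hM.le).trans h8
  refine le_trans ?_ h1
  have h8 : (1 + ((minor X 0 A i).natDegree : ℝ) / n) * (1 + mx1 A.charpoly (minor X 0 A i)) ≤
      10 * (1 + Real.log (gm A)) := by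
    have h9 : 1 + ((minor X 0 A i).natDegree : ℝ) / n ≤ 2 := by linarith
    have h10 : 1 + mx1 A.charpoly (minor X 0 A i) ≤ 5 * (1 + Real.log (gm A)) := by
      have := log12_le
      linarith
    calc _ ≤ 2 * (5 * (1 + Real.log (gm A))) :=
          mul_le_mul h9 h10 (by linarith) (by norm_num)
      _ = _ := by ring
  have h9 : ((1 + ((minor X 0 A i).natDegree : ℝ) / n) *
      (1 + mx1 A.charpoly (minor X 0 A i))) ^ 3 ≤ 1000 * (1 + Real.log (gm A)) ^ 3 := by
    calc _ ≤ (10 * (1 + Real.log (gm A))) ^ 3 := pow_le_pow_left₀ (by positivity) h8 3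
      _ = _ := by ring
  rw [div_div]
  exact div_le_div_of_nonneg_left hc.le (by positivity) h9

end

end Pool.Agent.Helper168.SV
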