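import Mathlib
import Pool.Agent.W110.PF.E
import Pool.Agent.Helper168.SV.Integral

/-!
# Complex matrices with few large singular values have dominated minors
-/

set_option autoImplicit false
set_option linter.unusedSectionVars false

namespace Pool.Agent.Helper168.SV

open Matrix MeasureTheory Polynomial Filter
open Pool.Agent.H261R2.CM (ez D_norm_ez m1 mx1 ev1 toC mx1_intervalIntegrable D_ae_ne D_toC_ne)
open Pool.Agent.W242.IM (ae_eval_ne)
open Pool.Agent.Y820.LB (log_mahler integrable_log Dom)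
open Pool.Agent.W110.PF (PB Dm)

noncomputable section

variable {n : ℕ} {A Q : Matrix (Fin n) (Fin n) ℂ} {t : Fin n → ℝ}

/-- the dominating polynomial for the index `i` -/
def Nc (A Q : Matrix (Fin n) (Fin n) ℂ) (t : Fin n → ℝ) (i : Fin n) : ℂ[X] :=
  NN (BB A Q t) (WW A Q t (Pi.single i 1))

theorem pert_ptc (h : Sp A Q t) (i : Fin n) (b : ℂ) (hb : ‖b‖ ≤ 1) (z : ℂ) (hz : ‖z‖ = 1)
    (hN : (Nc A Q t i).eval z ≠ 0) :
    ‖(z • (1 : Matrix (Fin n) (Fin n) ℂ) - A +
      b • vecMulVec (Pi.single i (1 : ℂ)) (star (Pi.single i (1 : ℂ)))).det‖ ≤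
      3 ^ (2 * Fintype.card (II t) + 1) * ‖(Nc A Q t i).eval z‖ := by
  have h1 := det_pert (BB A Q t) h.ctr (WW A Q t (Pi.single i 1)) (MM t (-1) b)
    (MM_ctr t (-1) b (by simp) hb) z hz hN
  rw [h.decomp] at h1
  have h2 : Fintype.card (II t ⊕ II t ⊕ Unit) = 2 * Fintype.card (II t) + 1 := by
    rw [Fintype.card_sum, Fintype.card_sum, Fintype.card_unit]
    ring
  rw [h2] at h1
  have h3 : z • (1 : Matrix (Fin n) (Fin n) ℂ) - BB A Q t + (BB A Q t - A +
      b • vecMulVec (Pi.single i (1 : ℂ)) (star (Pi.single i (1 : ℂ)))) =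
      z • (1 : Matrix (Fin n) (Fin n) ℂ) - A +
      b • vecMulVec (Pi.single i (1 : ℂ)) (star (Pi.single i (1 : ℂ))) := by abel
  rw [h3] at h1
  exact h1

theorem sum_le (h : Sp A Q t) (i : Fin n) (z : ℂ) (hz : ‖z‖ = 1)
    (hN : (Nc A Q t i).eval z ≠ 0) :
    ‖(z • (1 : Matrix (Fin n) (Fin n) ℂ) - A).det‖ +
      ‖(z • (1 : Matrix (Fin n) (Fin n) ℂ) - A).adjugate i i‖ ≤
      3 * 3 ^ (2 * Fintype.card (II t) + 1) * ‖(Nc A Q t i).eval z‖ := by
  have h0 := pert_ptc h i 0 (by simp) z hz hN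
  rw [zero_smul, add_zero] at h0
  have h1 := pert_ptc h i 1 (by simp) z hz hN
  rw [det_add_single] at h1
  set D := (z • (1 : Matrix (Fin n) (Fin n) ℂ) - A).det
  set a := (z • (1 : Matrix (Fin n) (Fin n) ℂ) - A).adjugate i i
  have h3 : ‖a‖ ≤ ‖D + a‖ + ‖D‖ := by
    have h4 : a = (D + a) - D := by ring
    conv_lhs => rw [h4]
    exact norm_sub_le _ _
  linarith

theorem Nc_mahler (h : Sp A Q t) (i : Fin n) :
    (Nc A Q t i).mahlerMeasure ≤ 2 * ∏ j : II t, t j := by
  unfold Nc
  rw [NN_mahler _ h.ctr]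
  refine (det_gram_le _).trans ?_
  rw [h.prod _ (nrm_single i)]

theorem log_monic_nonneg (p : ℂ[X]) (hp : p.Monic) : 0 ≤ Real.log p.mahlerMeasure := by
  refine Real.log_nonneg ?_
  rw [mahlerMeasure_eq_leadingCoeff_mul_prod_roots, hp.leadingCoeff, norm_one, one_mul]
  refine Multiset.one_le_prod ?_
  intro x hx
  obtain ⟨y, -, rfl⟩ := Multiset.mem_map.mp hx
  exact le_max_left _ _

theorem charpoly_at (A : Matrix (Fin n) (Fin n) ℂ) (z : ℂ) :
    A.charpoly.eval z = (z • (1 : Matrix (Fin n) (Fin n) ℂ) - A).det := by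
  rw [Matrix.eval_charpoly]
  congr 2
  rw [Matrix.smul_one_eq_diagonal]
  rfl

/-- **the minors are dominated** -/
theorem PB_sp (h : Sp A Q t) (i : Fin n) :
    PB X 0 A i (Real.log 6 + (2 * Fintype.card (II t) + 1) * Real.log 3 +
      Real.log (∏ j : II t, t j)) := by
  have hX : (toC X) = X := by simp [toC]
  have hD : ∀ z : ℂ, Dm X 0 A z = z • (1 : Matrix (Fin n) (Fin n) ℂ) - A := by
    intro z
    unfold Pool.Agent.W110.PF.Dm
    rw [hX, eval_X, pow_zero, one_smul]
  have hN : Nc A Q t i ≠ 0 := NN_ne _ _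
  have hmon := Matrix.charpoly_monic A
  have hp : 0 < ∏ j : II t, t j :=
    Finset.prod_pos fun j _ => lt_trans one_pos j.2
  set k : ℝ := 3 * 3 ^ (2 * Fintype.card (II t) + 1) with hk
  have hk0 : 0 < k := by positivity
  refine ⟨fun s => (Dm X 0 A (ez s)).adjugate i i / (Dm X 0 A (ez s)).det, ⟨fun s =>
    Real.log k + Real.log ‖(Nc A Q t i).eval (ez s)‖ - Real.log ‖A.charpoly.eval (ez s)‖,
    (intervalIntegrable_const.add (integrable_log _)).sub (integrable_log _), ?_, ?_⟩, ?_⟩
  · filter_upwards [ae_eval_ne _ hN, ae_eval_ne _ hmon.ne_zero] with s h1 h2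
    refine ⟨norm_nonneg _, ?_⟩
    have h3 := sum_le h i (ez s) (D_norm_ez s) h1
    rw [charpoly_at] at h2 ⊢
    rw [hD, norm_div]
    have h4 : 0 < ‖(ez s • (1 : Matrix (Fin n) (Fin n) ℂ) - A).det‖ := norm_pos_iff.mpr h2
    have h5 : 0 < ‖(Nc A Q t i).eval (ez s)‖ := norm_pos_iff.mpr h1
    have h6 : 1 + ‖(ez s • (1 : Matrix (Fin n) (Fin n) ℂ) - A).adjugate i i‖ /
        ‖(ez s • (1 : Matrix (Fin n) (Fin n) ℂ) - A).det‖ ≤
        k * ‖(Nc A Q t i).eval (ez s)‖ / ‖(ez s • (1 : Matrix (Fin n) (Fin n) ℂ) - A).det‖ := by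
      rw [le_div_iff₀ h4, add_mul, one_mul, div_mul_cancel₀ _ h4.ne']
      exact h3
    refine (Real.log_le_log (by positivity) h6).trans ?_
    rw [Real.log_div (by positivity) h4.ne', Real.log_mul hk0.ne' h5.ne']
  · rw [intervalIntegral.integral_sub (intervalIntegrable_const.add (integrable_log _))
      (integrable_log _), intervalIntegral.integral_add intervalIntegrable_const (integrable_log _),
      ← log_mahler, ← log_mahler]
    have h1 := log_monic_nonneg _ hmon
    have h2 : Real.log (Nc A Q t i).mahlerMeasure ≤ Real.log (2 * ∏ j : II t, t j) :=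
      Real.log_le_log (Polynomial.mahlerMeasure_pos_of_ne_zero hN) (Nc_mahler h i)
    rw [Real.log_mul two_ne_zero hp.ne'] at h2
    have h3 : Real.log k = Real.log 3 + (2 * Fintype.card (II t) + 1) * Real.log 3 := by
      rw [hk, Real.log_mul (by norm_num) (by positivity), Real.log_pow]
      push_cast
      rfl
    have h4 : Real.log 6 = Real.log 2 + Real.log 3 := by
      rw [← Real.log_mul (by norm_num) (by norm_num)]
      norm_num
    simp only [intervalIntegral.integral_const, sub_zero, one_smul]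
    rw [h3, h4]
    linarith
  · filter_upwards [ae_eval_ne _ hmon.ne_zero] with s h2
    rw [charpoly_at, ← hD] at h2
    rw [mul_div_cancel₀ _ h2]

/-- the measure of the Gram matrix as a product -/
theorem gram_prod (h : Sp A Q t) : (Aᴴ * A).charpoly.mahlerMeasure = ∏ j : II t, t j := by
  have h0 : (Aᴴ * A).charpoly.mahlerMeasure = ∏ i, max 1 (t i) := by
    rw [mahlerMeasure_eq_leadingCoeff_mul_prod_roots, h.roots,
      (Matrix.charpoly_monic _).leadingCoeff, norm_one, one_mul, Multiset.map_map]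
    refine Finset.prod_congr rfl fun i _ => ?_
    rw [Function.comp_apply, Complex.norm_real, Real.norm_of_nonneg (h.nonneg i)]
  rw [h0]
  have h6 : ∀ i, i ∉ (Finset.univ.filter fun i => 1 < t i) → max 1 (t i) = 1 := by
    intro i hi
    rw [Finset.mem_filter, not_and] at hi
    exact max_eq_left (not_lt.mp (hi (Finset.mem_univ i)))
  rw [← Finset.prod_subset (Finset.subset_univ (Finset.univ.filter fun i => 1 < t i))
      (fun i _ hi => h6 i hi), ← Finset.prod_subtype (Finset.univ.filter fun i => 1 < t i)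
      (p := fun i => 1 < t i) (by simp) (fun i => t i)]
  refine Finset.prod_congr rfl fun i hi => ?_
  rw [Finset.mem_filter] at hi
  exact max_eq_right hi.2.le

theorem four_pow_le (h : Sp A Q t) :
    (4 : ℝ) ^ Fintype.card (II t) * ((Aᴴ * A).charpoly.roots.map g1).prod ≤
      (Aᴴ * A).charpoly.mahlerMeasure ^ 2 := by
  have h0 : (Aᴴ * A).charpoly.mahlerMeasure = ∏ i, max 1 (t i) := by
    rw [mahlerMeasure_eq_leadingCoeff_mul_prod_roots, h.roots,
      (Matrix.charpoly_monic _).leadingCoeff, norm_one, one_mul, Multiset.map_map]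
    refine Finset.prod_congr rfl fun i _ => ?_
    rw [Function.comp_apply, Complex.norm_real, Real.norm_of_nonneg (h.nonneg i)]
  rw [h0, h.roots, Multiset.map_map]
  have h2 : ∀ i, g1 (t i : ℂ) * (if 1 < t i then 4 else 1) ≤ (max 1 (t i)) ^ 2 := by
    intro i
    have h3 := h.nonneg i
    unfold g1
    split_ifs with h4 h5 h5
    · have h6 : t i = 1 := by exact_mod_cast h4
      linarith
    · rw [one_mul]
      have : (1 : ℝ) ≤ max 1 (t i) := le_max_left _ _
      nlinarith
    · have h6 : ‖1 - (t i : ℂ)‖ = t i - 1 := by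
        rw [← Complex.ofReal_one, ← Complex.ofReal_sub, Complex.norm_real, Real.norm_eq_abs,
          abs_of_neg (by linarith)]
        ring
      rw [h6, max_eq_right h5.le]
      nlinarith [sq_nonneg (t i - 2)]
    · have h6 : ‖1 - (t i : ℂ)‖ = 1 - t i := by
        rw [← Complex.ofReal_one, ← Complex.ofReal_sub, Complex.norm_real, Real.norm_eq_abs,
          abs_of_nonneg (by linarith)]
      rw [h6]
      have : (1 : ℝ) ≤ max 1 (t i) := le_max_left _ _
      nlinarith
  have h3 : ∏ i, (g1 (t i : ℂ) * (if 1 < t i then (4 : ℝ) else 1)) ≤ ∏ i, (max 1 (t i)) ^ 2 := by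
    refine Finset.prod_le_prod (fun i _ => ?_) fun i _ => h2 i
    unfold g1
    split_ifs <;> positivity
  rw [Finset.prod_mul_distrib, Finset.prod_pow, Finset.prod_ite, Finset.prod_const,
    Finset.prod_const, one_pow, mul_one] at h3
  have h4 : (Finset.univ.filter fun i => 1 < t i).card = Fintype.card (II t) :=
    (Fintype.card_subtype _).symm
  rw [h4] at h3
  rw [mul_comm]
  exact h3

/-- the pointwise bound in terms of the measure of the Gram matrix -/
theorem PB_gram (A : Matrix (Fin n) (Fin n) ℂ) (i : Fin n) (v : ℝ) (hv : 0 < v)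
    (hv1 : ((Aᴴ * A).charpoly.roots.map g1).prod = v) :
    PB X 0 A i (Real.log 18 + 5 * Real.log (Aᴴ * A).charpoly.mahlerMeasure - 2 * Real.log v) := by
  obtain ⟨Q, t, h⟩ := exists_sp A
  refine (PB_sp h i).mono ?_
  have h1 := four_pow_le h
  rw [hv1] at h1
  rw [← gram_prod h]
  have hM : 0 ≤ Real.log (Aᴴ * A).charpoly.mahlerMeasure :=
    log_monic_nonneg _ (Matrix.charpoly_monic _)
  have hM0 : 0 < (Aᴴ * A).charpoly.mahlerMeasure :=
    Polynomial.mahlerMeasure_pos_of_ne_zero (Matrix.charpoly_monic _).ne_zero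
  have h2 := Real.log_le_log (by positivity) h1
  rw [Real.log_mul (by positivity) hv.ne', Real.log_pow, Real.log_pow] at h2
  have h3 : Real.log 3 ≤ Real.log 4 := Real.log_le_log (by norm_num) (by norm_num)
  have h4 : Real.log 18 = Real.log 6 + Real.log 3 := by
    rw [← Real.log_mul (by norm_num) (by norm_num)]
    norm_num
  have h5 : (0 : ℝ) ≤ Fintype.card (II t) := Nat.cast_nonneg _
  have h6 := mul_le_mul_of_nonneg_left h3 h5
  push_cast at h2
  rw [h4]
  nlinarith

end

end Pool.Agent.Helper168.SV
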