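import Mathlib
import Pool.Agent.Helper168.SV.Torus

/-!
# Families of matrices over the torus with bounded Gram height
-/

set_option autoImplicit false
set_option linter.unusedSectionVars false

namespace Pool.Agent.Helper168.SV

open Matrix MeasureTheory Filter
open Pool.Agent.H261R2.CM (ez D_norm_ez toC tv mM one_le_mM F_integrable F_zero_null)
open Pool.Agent.H261R2.CM.J (tvh tv_eq rv sle tv_rv zz tv_monomial)
open Pool.Agent.Y820.LB (log_mahler integrable_log Dom)
open Pool.Agent.W110.PF (PB Dm pm pn fs fs_det pm_ne family_gap)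
open Pool.Agent.W110.PG (cub seg sym norm_mon mon_ne cons_facts seg_integral)

noncomputable section

variable {n k : ℕ}

/-- a common bound for the exponents -/
def dd (P : Matrix (Fin n) (Fin n) (MvPolynomial (Fin k) ℤ)) : Fin k →₀ ℕ :=
  ∑ i, ∑ j, ∑ s ∈ (P i j).support, s

theorem sle_dd (P : Matrix (Fin n) (Fin n) (MvPolynomial (Fin k) ℤ)) (i j : Fin n) :
    sle (P i j) (dd P) := by
  intro s hs
  unfold dd
  calc s ≤ ∑ s ∈ (P i j).support, s :=
        Finset.single_le_sum (f := fun s => s) (fun _ _ => bot_le) hs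
    _ ≤ ∑ j, ∑ s ∈ (P i j).support, s :=
        Finset.single_le_sum (f := fun j => ∑ s ∈ (P i j).support, s) (fun _ _ => bot_le)
          (Finset.mem_univ j)
    _ ≤ _ := Finset.single_le_sum (f := fun i => ∑ j, ∑ s ∈ (P i j).support, s)
          (fun _ _ => bot_le) (Finset.mem_univ i)

/-- the Gram matrix times a monomial -/
def gr (P : Matrix (Fin n) (Fin n) (MvPolynomial (Fin k) ℤ)) :
    Matrix (Fin n) (Fin n) (MvPolynomial (Fin k) ℤ) :=
  (Matrix.of fun i j => rv (dd P) (P j i)) * P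

theorem mon_eq (D : Fin k →₀ ℕ) (t : Fin k → ℝ) :
    tv (MvPolynomial.monomial D 1) t = ∏ i, zz t i ^ (D i) := by
  rw [tv_monomial, Int.cast_one, one_mul]

theorem sym_gr (P : Matrix (Fin n) (Fin n) (MvPolynomial (Fin k) ℤ)) (d : Fin k →₀ ℕ)
    (t : Fin k → ℝ) : sym (gr P) (dd P) t = (sym P d t)ᴴ * sym P d t := by
  ext i j
  unfold Pool.Agent.W110.PG.sym gr
  rw [Matrix.of_apply, Matrix.mul_apply, Matrix.mul_apply, tv_eq (∑ l, _), map_sum, Finset.mul_sum]
  refine Finset.sum_congr rfl fun l _ => ?_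
  rw [map_mul, ← tv_eq, ← tv_eq, Matrix.of_apply, tv_rv (sle_dd P l i), mon_eq,
    Matrix.conjTranspose_apply, Matrix.of_apply, Matrix.of_apply, star_mul', star_inv₀]
  have h1 : (∏ i, zz t i ^ (dd P i)) ≠ 0 := by
    rw [← mon_eq]
    exact mon_ne _ _
  have h2 : star (tv (MvPolynomial.monomial d 1) t) * tv (MvPolynomial.monomial d 1) t = 1 := by
    rw [Complex.star_def, mul_comm, Complex.mul_conj, Complex.normSq_eq_norm_sq, norm_mon]
    simp
  have h3 : tv (MvPolynomial.monomial d 1) t ≠ 0 := mon_ne _ _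
  have h4 : star (tv (MvPolynomial.monomial d 1) t) ≠ 0 := left_ne_zero_of_mul_eq_one h2
  have h5 : (star (tv (MvPolynomial.monomial d 1) t))⁻¹ * (tv (MvPolynomial.monomial d 1) t)⁻¹ =
      1 := by
    rw [← mul_inv, h2, inv_one]
  rw [Complex.star_def] at h5 ⊢
  calc _ = (starRingEnd ℂ) (tv (P l i) t) * tv (P l j) t := by
        rw [← mul_assoc, ← mul_assoc, inv_mul_cancel₀ h1, one_mul]
    _ = ((starRingEnd ℂ (tv (MvPolynomial.monomial d 1) t))⁻¹ *
        (tv (MvPolynomial.monomial d 1) t)⁻¹) *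
        ((starRingEnd ℂ) (tv (P l i) t) * tv (P l j) t) := by rw [h5, one_mul]
    _ = _ := by ring

/-- the characteristic polynomial at a point of the torus -/
theorem U_map (P : Matrix (Fin n) (Fin n) (MvPolynomial (Fin k) ℤ)) (D : Fin k →₀ ℕ)
    (t : Fin k → ℝ) :
    ((pn Polynomial.X 0 (MvPolynomial.monomial D 1) P).det).map (tvh t) =
      Polynomial.C (tv (MvPolynomial.monomial D 1) t ^ n) * (sym P D t).charpoly := by
  have h0 : (tvh t) (MvPolynomial.monomial D 1) ≠ 0 := mon_ne D t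
  have h1 : (Polynomial.mapRingHom (tvh t)).mapMatrix
      (pn Polynomial.X 0 (MvPolynomial.monomial D 1) P) =
      Polynomial.C (tv (MvPolynomial.monomial D 1) t) • (sym P D t).charmatrix := by
    ext1 i j
    rw [RingHom.mapMatrix_apply, Matrix.map_apply, Matrix.smul_apply, Matrix.charmatrix_apply]
    unfold Pool.Agent.W110.PF.pn Pool.Agent.W110.PG.sym
    rw [Matrix.of_apply, Matrix.of_apply, smul_eq_mul, tv_eq, tv_eq]
    by_cases hij : i = j
    · subst hij
      simp only [if_true, Matrix.diagonal_apply_eq, pow_zero, one_mul, Polynomial.map_X, map_sub,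
        map_mul, Polynomial.coe_mapRingHom, Polynomial.map_C, mul_sub]
      rw [← mul_assoc, ← Polynomial.C_mul, mul_inv_cancel₀ h0, Polynomial.C_1, one_mul, mul_comm]
    · rw [if_neg hij, Matrix.diagonal_apply_ne _ hij, pow_zero, one_mul, map_sub, map_zero,
        zero_sub, zero_sub, mul_neg, Polynomial.coe_mapRingHom, Polynomial.map_C,
        ← Polynomial.C_mul, ← mul_assoc, mul_inv_cancel₀ h0, one_mul]
  have h2 : ((pn Polynomial.X 0 (MvPolynomial.monomial D 1) P).det).map (tvh t) =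
      ((Polynomial.mapRingHom (tvh t)).mapMatrix
        (pn Polynomial.X 0 (MvPolynomial.monomial D 1) P)).det := by
    rw [← RingHom.map_det]
    rfl
  rw [h2, h1, Matrix.det_smul, Fintype.card_fin, ← Polynomial.C_pow]
  rfl

theorem exists_w (P : Matrix (Fin n) (Fin n) (MvPolynomial (Fin k) ℤ)) (D : Fin k →₀ ℕ) :
    ∃ w : MvPolynomial (Fin k) ℤ, w ≠ 0 ∧ ∀ t, tv w t ≠ 0 →
      ((sym P D t).charpoly.roots.map g1).prod = ‖tv w t‖ := by
  set U := (pn Polynomial.X 0 (MvPolynomial.monomial D 1) P).det with hU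
  have hU0 : U ≠ 0 := by
    intro h0
    have h1 := U_map P D 0
    rw [← hU, h0, Polynomial.map_zero] at h1
    have h2 : (Polynomial.C (tv (MvPolynomial.monomial D 1) (0 : Fin k → ℝ) ^ n) : Polynomial ℂ) ≠
        0 := Polynomial.C_ne_zero.mpr (pow_ne_zero _ (mon_ne _ _))
    exact mul_ne_zero h2 (Matrix.charpoly_monic _).ne_zero h1.symm
  obtain ⟨q, hq⟩ := Polynomial.pow_rootMultiplicity_dvd U 1
  set r := U.rootMultiplicity 1 with hr
  have hq1 : q.eval 1 ≠ 0 := by
    intro h0
    have h1 : (Polynomial.X - Polynomial.C 1) ∣ q := Polynomial.dvd_iff_isRoot.mpr h0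
    obtain ⟨s, hs⟩ := h1
    have h2 : (Polynomial.X - Polynomial.C 1) ^ (r + 1) ∣ U := by
      refine ⟨s, ?_⟩
      rw [hq, hs, pow_succ]
      ring
    have h3 := (Polynomial.le_rootMultiplicity_iff hU0).mpr h2
    omega
  refine ⟨q.eval 1, hq1, fun t ht => ?_⟩
  set φ := tvh t with hφ
  set u := tv (MvPolynomial.monomial D 1) t with hu
  have hu1 : ‖u ^ n‖ = 1 := by rw [norm_pow, hu, norm_mon, one_pow]
  have hu0 : u ^ n ≠ 0 := by
    intro h0
    rw [h0, norm_zero] at hu1
    exact zero_ne_one hu1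
  have h1 : Polynomial.C (u ^ n) * (sym P D t).charpoly =
      (Polynomial.X - Polynomial.C (1 : ℂ)) ^ r * q.map φ := by
    rw [← U_map, ← hU, hq, Polynomial.map_mul, Polynomial.map_pow, Polynomial.map_sub,
      Polynomial.map_X, Polynomial.map_C, map_one]
  have hq0 : (q.map φ).eval 1 = tv (q.eval 1) t := by
    rw [tv_eq, ← hφ, Polynomial.eval_map]
    have h4 := Polynomial.hom_eval₂ q (RingHom.id _) φ 1
    simp only [Polynomial.eval₂_id, map_one, RingHom.comp_id] at h4
    rw [h4]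
  have hqn : q.map φ ≠ 0 := by
    intro h0
    rw [h0, Polynomial.eval_zero] at hq0
    exact ht hq0.symm
  have hX0 : (Polynomial.X - Polynomial.C (1 : ℂ)) ^ r ≠ 0 :=
    pow_ne_zero _ (Polynomial.X_sub_C_ne_zero 1)
  have hlc : (q.map φ).leadingCoeff = u ^ n := by
    have h2 := congrArg Polynomial.leadingCoeff h1
    rw [Polynomial.leadingCoeff_mul, Polynomial.leadingCoeff_mul, Polynomial.leadingCoeff_C,
      (Matrix.charpoly_monic _).leadingCoeff, mul_one, Polynomial.leadingCoeff_pow,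
      Polynomial.leadingCoeff_X_sub_C, one_pow, one_mul] at h2
    exact h2.symm
  have h2 : (sym P D t).charpoly.roots = r • {1} + (q.map φ).roots := by
    rw [← Polynomial.roots_C_mul _ hu0, h1, Polynomial.roots_mul (mul_ne_zero hX0 hqn),
      Polynomial.roots_pow, Polynomial.roots_X_sub_C]
  rw [h2, Multiset.map_add, Multiset.prod_add, Multiset.map_nsmul, Multiset.prod_nsmul,
    Multiset.map_singleton, Multiset.prod_singleton]
  have h3 : g1 1 = 1 := by
    unfold g1
    rw [if_pos rfl]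
  rw [h3, one_pow, one_mul]
  have h4 : ((q.map φ).roots.map g1) = ((q.map φ).roots.map fun z => ‖1 - z‖) := by
    refine Multiset.map_congr rfl fun z hz => ?_
    unfold g1
    rw [if_neg]
    rintro rfl
    have h5 : (q.map φ).eval 1 = 0 := (Polynomial.mem_roots hqn).mp hz
    rw [hq0] at h5
    exact ht h5
  have h5 : (q.map φ).eval 1 = u ^ n * ((q.map φ).roots.map fun z => 1 - z).prod := by
    have h6 := (IsAlgClosed.splits (q.map φ)).eq_prod_roots
    rw [hlc] at h6
    conv_lhs => rw [h6]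
    rw [Polynomial.eval_mul, Polynomial.eval_C, Polynomial.eval_multiset_prod, Multiset.map_map]
    congr 2
    refine Multiset.map_congr rfl fun z _ => ?_
    simp
  have h6 : ((q.map φ).roots.map fun z => ‖1 - z‖).prod = ‖(q.map φ).eval 1‖ := by
    rw [h5, norm_mul, hu1, one_mul]
    have h7 := Multiset.prod_hom ((q.map φ).roots.map fun z => 1 - z) (normHom : ℂ →*₀ ℝ)
    rw [Multiset.map_map] at h7
    exact h7
  rw [h4, h6, hq0]

theorem gram_integrable (P : Matrix (Fin n) (Fin n) (MvPolynomial (Fin k) ℤ)) (d : Fin k →₀ ℕ) :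
    Integrable (fun t => Real.log ((sym P d t)ᴴ * sym P d t).charpoly.mahlerMeasure) (cub k) := by
  have hg : ∀ c : ℤ, (Polynomial.X : Polynomial ℤ) ≠ Polynomial.C c * Polynomial.X ^ 0 := by
    intro c h1
    rw [pow_zero, mul_one] at h1
    have h2 := congrArg Polynomial.natDegree h1
    rw [Polynomial.natDegree_X, Polynomial.natDegree_C] at h2
    omega
  have h1 := (cons_facts (F_integrable (pm_ne Polynomial.X 0 hg (gr P) (dd P)))).1
  refine h1.congr (Eventually.of_forall fun t => ?_)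
  have hX : (toC Polynomial.X) = Polynomial.X := by simp [toC]
  show ∫ s, Real.log ‖tv (pm Polynomial.X 0 (gr P) (dd P)).det (Fin.cons s t)‖ ∂seg =
    Real.log ((sym P d t)ᴴ * sym P d t).charpoly.mahlerMeasure
  rw [log_mahler, seg_integral]
  refine intervalIntegral.integral_congr fun s _ => ?_
  show Real.log ‖tv (pm Polynomial.X 0 (gr P) (dd P)).det (Fin.cons s t)‖ = _
  rw [Pool.Agent.W110.PF.norm_det, sym_gr P d t, charpoly_at]
  unfold Pool.Agent.W110.PF.Dm
  rw [hX, Polynomial.eval_X, pow_zero, one_smul]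

/-- **the gap for families of matrices with bounded Gram height** -/
theorem gap_torus (K : ℝ) : ∃ μ : ℝ, 1 < μ ∧ ∀ (k n : ℕ)
    (P : Matrix (Fin n) (Fin n) (MvPolynomial (Fin k) ℤ)) (d : Fin k →₀ ℕ),
    ∫ t, Real.log ((sym P d t)ᴴ * sym P d t).charpoly.mahlerMeasure ∂(cub k) ≤ K →
    mM (pm Polynomial.X 0 P d).det = 1 ∨ μ ≤ mM (pm Polynomial.X 0 P d).det := by
  have hg : ∀ c : ℤ, (Polynomial.X : Polynomial ℤ) ≠ Polynomial.C c * Polynomial.X ^ 0 := by
    intro c h1
    rw [pow_zero, mul_one] at h1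
    have h2 := congrArg Polynomial.natDegree h1
    rw [Polynomial.natDegree_X, Polynomial.natDegree_C] at h2
    omega
  obtain ⟨c, hc, h⟩ := family_gap (Real.log 18 + 5 * K) Polynomial.X 0 hg
  refine ⟨c, hc, fun k n P d hK => h k n P d fun i => ?_⟩
  obtain ⟨w, hw, hw1⟩ := exists_w (gr P) (dd P)
  have h1 := gram_integrable P d
  have h2 := F_integrable hw
  have h3 : 0 ≤ ∫ t, Real.log ‖tv w t‖ ∂(cub k) := by
    have h4 := Real.log_nonneg (one_le_mM w hw)
    unfold Pool.Agent.H261R2.CM.mM at h4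
    rw [Real.log_exp] at h4
    exact h4
  refine ⟨fun t => Real.log 18 + 5 * Real.log ((sym P d t)ᴴ * sym P d t).charpoly.mahlerMeasure -
    2 * Real.log ‖tv w t‖, ((integrable_const _).add (h1.const_mul 5)).sub (h2.const_mul 2), ?_, ?_⟩
  · have e1 : ∫ t, (Real.log 18 + 5 * Real.log ((sym P d t)ᴴ * sym P d t).charpoly.mahlerMeasure -
        2 * Real.log ‖tv w t‖) ∂(cub k) =
        ∫ t, (Real.log 18 + 5 * Real.log ((sym P d t)ᴴ * sym P d t).charpoly.mahlerMeasure) ∂(cub k) -
        ∫ t, 2 * Real.log ‖tv w t‖ ∂(cub k) :=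
      integral_sub ((integrable_const _).add (h1.const_mul 5)) (h2.const_mul 2)
    have e2 : ∫ t, (Real.log 18 + 5 * Real.log ((sym P d t)ᴴ * sym P d t).charpoly.mahlerMeasure)
        ∂(cub k) = ∫ _, Real.log 18 ∂(cub k) +
        ∫ t, 5 * Real.log ((sym P d t)ᴴ * sym P d t).charpoly.mahlerMeasure ∂(cub k) :=
      integral_add (integrable_const _) (h1.const_mul 5)
    rw [e1, e2, integral_const_mul, integral_const_mul, integral_const, probReal_univ, one_smul]
    linarith
  · filter_upwards [F_zero_null hw] with t ht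
    refine PB_gram (sym P d t) i _ (norm_pos_iff.mpr ht) ?_
    rw [← sym_gr]
    exact hw1 t ht

end

end Pool.Agent.Helper168.SV
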