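import Mathlib
import Pool.Agent.TH845.KN.B2
import Pool.Agent.W242.IM.Final2
import Pool.Agent.Helper168.SV.Family

/-!
# Closure of the measures of families of matrices with controlled Gram height
-/

set_option autoImplicit false
set_option linter.unusedSectionVars false

namespace Pool.Agent.Helper168.SV

open Matrix MeasureTheory Filter
open Pool.Agent.H261R2.CM
open Pool.Agent.H261R2.CM.J (tvh tv_eq rv sle tv_rv zz tv_monomial)
open Pool.Agent.W110.PF (PB Dm pm pn fs fs_det fs_adj fs_dvd fs_prime fs_inj fs_succ pm_ne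
  family_gap prime_cases top_coeff mono_ne mM_mono mx_of_PB)
open Pool.Agent.W110.PG (mx_mul mM_one_of_dvd cub seg sym norm_mon mon_ne cons_facts seg_integral)
open Pool.Agent.TH845.KN (BC one_mem_LL)

noncomputable section

variable {n k : ℕ}

theorem hgX : ∀ c : ℤ, (Polynomial.X : Polynomial ℤ) ≠ Polynomial.C c * Polynomial.X ^ 0 := by
  intro c h1
  rw [pow_zero, mul_one] at h1
  have h2 := congrArg Polynomial.natDegree h1
  rw [Polynomial.natDegree_X, Polynomial.natDegree_C] at h2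
  omega

theorem exists_minor_prime (P : Matrix (Fin n) (Fin n) (MvPolynomial (Fin k) ℤ)) (d : Fin k →₀ ℕ)
    (f u : MvPolynomial (Fin (k + 1)) ℤ) (hf : Prime f) (hf1 : 1 < mM f)
    (hF : (pm Polynomial.X 0 P d).det = f * u) (hu : ¬ f ∣ u) :
    ∃ i, ¬ f ∣ (pm Polynomial.X 0 P d).adjugate i i := by
  by_contra hcon
  push Not at hcon
  have h4 := prime_cases Polynomial.X 0 (MvPolynomial.monomial d 1) P (fs k f) (fs k u) 1 le_rfl
    (fs_prime hf) (by rw [← fs_det, hF, map_mul, pow_one]) (by rw [fs_dvd]; exact hu)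
    (fun i => by rw [← fs_adj, pow_one, fs_dvd]; exact hcon i)
  rcases h4 with h5 | ⟨c, hc⟩
  · have h6 : fs k (MvPolynomial.X 0) = Polynomial.X := MvPolynomial.finSuccEquiv_X_zero
    rw [← h6, fs_dvd] at h5
    have h7 := mM_one_of_dvd f _ (MvPolynomial.X_ne_zero 0) h5 (J.mM_X 0)
    linarith
  · have h6 : f = MvPolynomial.rename Fin.succ c := fs_inj (by rw [hc, fs_succ])
    have h7 : mM f = mM c := by rw [h6, J.mM_rename]
    have hcp : Prime c := by
      have h8 := fs_prime hf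
      rw [hc] at h8
      exact Polynomial.prime_C_iff.mp h8
    have h8 : Polynomial.C c ∣ (pn Polynomial.X 0 (MvPolynomial.monomial d 1) P).det := by
      rw [← fs_det, ← hc, fs_dvd, hF]
      exact Dvd.intro _ rfl
    have h9 := (Polynomial.C_dvd_iff_dvd_coeff _ _).mp h8 (n * (Polynomial.X : Polynomial ℤ).natDegree)
    rw [top_coeff Polynomial.X 0 (MvPolynomial.monomial d 1) P (by simp),
      Polynomial.leadingCoeff_X, Int.cast_one, one_mul] at h9
    have h10 := mM_one_of_dvd c _ (mono_ne d) (hcp.dvd_of_dvd_pow h9) (mM_mono d)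
    linarith

/-- the Gram height -/
def gh (P : Matrix (Fin n) (Fin n) (MvPolynomial (Fin k) ℤ)) (d : Fin k →₀ ℕ) : ℝ :=
  ∫ t, Real.log ((sym P d t)ᴴ * sym P d t).charpoly.mahlerMeasure ∂(cub k)

theorem gram_bound (P : Matrix (Fin n) (Fin n) (MvPolynomial (Fin k) ℤ)) (d : Fin k →₀ ℕ)
    (i : Fin n) : ∃ l : (Fin k → ℝ) → ℝ, Integrable l (cub k) ∧
      ∫ t, l t ∂(cub k) ≤ Real.log 18 + 5 * gh P d ∧
      ∀ᵐ t ∂(cub k), PB Polynomial.X 0 (sym P d t) i (l t) := by
  obtain ⟨w, hw, hw1⟩ := exists_w (gr P) (dd P)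
  have h1 := gram_integrable P d
  have h2 := F_integrable hw
  have h3 : 0 ≤ ∫ t, Real.log ‖tv w t‖ ∂(cub k) := by
    have h4 := Real.log_nonneg (one_le_mM w hw)
    unfold Pool.Agent.H261R2.CM.mM at h4
    rw [Real.log_exp] at h4
    exact h4
  refine ⟨fun t => Real.log 18 + 5 * Real.log ((sym P d t)ᴴ * sym P d t).charpoly.mahlerMeasure -
    2 * Real.log ‖tv w t‖, ((integrable_const _).add (h1.const_mul 5)).sub (h2.const_mul 2), ?_, ?_⟩
  · have e1 : ∫ t, (Real.log 18 + 5 * Real.log ((sym P d t)ᴴ * sym P d t).charpoly.mahlerMeasure -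
        2 * Real.log ‖tv w t‖) ∂(cub k) =
        ∫ t, (Real.log 18 + 5 * Real.log ((sym P d t)ᴴ * sym P d t).charpoly.mahlerMeasure) ∂(cub k) -
        ∫ t, 2 * Real.log ‖tv w t‖ ∂(cub k) :=
      integral_sub ((integrable_const _).add (h1.const_mul 5)) (h2.const_mul 2)
    have e2 : ∫ t, (Real.log 18 + 5 * Real.log ((sym P d t)ᴴ * sym P d t).charpoly.mahlerMeasure)
        ∂(cub k) = ∫ _, Real.log 18 ∂(cub k) +
        ∫ t, 5 * Real.log ((sym P d t)ᴴ * sym P d t).charpoly.mahlerMeasure ∂(cub k) :=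
      integral_add (integrable_const _) (h1.const_mul 5)
    rw [e1, e2, integral_const_mul, integral_const_mul, integral_const, probReal_univ, one_smul]
    unfold gh
    linarith
  · filter_upwards [F_zero_null hw] with t ht
    refine PB_gram (sym P d t) i _ (norm_pos_iff.mpr ht) ?_
    rw [← sym_gr]
    exact hw1 t ht

/-- the measures of the families with irreducible characteristic polynomial, up to a factor of
measure one, and Gram height bounded in terms of the measure -/
def GM (Λ : ℝ → ℝ) : Set ℝ :=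
  {x : ℝ | ∃ (k n : ℕ) (P : Matrix (Fin n) (Fin n) (MvPolynomial (Fin k) ℤ)) (d : Fin k →₀ ℕ)
    (f u : MvPolynomial (Fin (k + 1)) ℤ), (pm Polynomial.X 0 P d).det = f * u ∧ Irreducible f ∧
      mM u = 1 ∧ x = mM (pm Polynomial.X 0 P d).det ∧ gh P d ≤ Λ x}

theorem GM_BC (Λ : ℝ → ℝ) (hΛ : Monotone Λ) : BC (GM Λ) := by
  intro B
  refine ⟨max 0 (Real.log (max B 1) + (Real.log 18 + 5 * Λ B)), ?_⟩
  rintro x ⟨⟨k, n, P, d, f, u, hF, hf, hu1, hx, hgh⟩, hxB⟩
  have hxB' : x < B := hxB
  have hF0 := pm_ne Polynomial.X 0 hgX P d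
  have hu0 : u ≠ 0 := by
    rintro rfl
    exact hF0 (by rw [hF, mul_zero])
  have hfp : Prime f := UniqueFactorizationMonoid.irreducible_iff_prime.mp hf
  have hxf : x = mM f := by rw [hx, hF, mM_mul f u hfp.ne_zero hu0, hu1, mul_one]
  by_cases hx1 : x = 1
  · rw [hx1]
    exact LL_mono (le_max_left _ _) one_mem_LL
  have hf1 : 1 < mM f := by
    refine lt_of_le_of_ne (one_le_mM f hfp.ne_zero) fun h => hx1 ?_
    rw [hxf, ← h]
  have hfu : ¬ f ∣ u := by
    rintro ⟨r, hr⟩
    have hr0 : r ≠ 0 := by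
      rintro rfl
      exact hu0 (by rw [hr, mul_zero])
    rw [hr, mM_mul f r hfp.ne_zero hr0] at hu1
    have := one_le_mM r hr0
    nlinarith
  obtain ⟨i, hi⟩ := exists_minor_prime P d f u hfp hf1 hF hfu
  obtain ⟨l, hl, hlK, hlP⟩ := gram_bound P d i
  have h3 := mx_of_PB Polynomial.X 0 hgX P d i l hl hlP
  set F := (pm Polynomial.X 0 P d).det with hFdef
  set G := (pm Polynomial.X 0 P d).adjugate i i with hGdef
  have hG0 : G ≠ 0 := by
    intro h0
    rw [h0] at hi
    exact hi (dvd_zero _)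
  obtain ⟨a, b, D, hab, ha, hb⟩ := UniqueFactorizationMonoid.exists_reduced_factors F hF0 G
  have hD0 : D ≠ 0 := by
    rintro rfl
    exact hF0 (by rw [← ha, zero_mul])
  have ha0 : a ≠ 0 := by
    rintro rfl
    exact hF0 (by rw [← ha, mul_zero])
  have hb0 : b ≠ 0 := by
    rintro rfl
    exact hG0 (by rw [← hb, mul_zero])
  have hfa : f ∣ a := by
    have h4 : f ∣ D * a := by
      rw [ha, hF]
      exact Dvd.intro _ rfl
    rcases hfp.dvd_or_dvd h4 with h5 | h5
    · exact absurd (by rw [← hb]; exact h5.mul_right b) hi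
    · exact h5
  have hm : mM F = mM D * mM a := by rw [← ha, mM_mul D a hD0 ha0]
  have hD1 := one_le_mM D hD0
  have ha1 : mM f ≤ mM a := by
    obtain ⟨r, hr⟩ := hfa
    have hr0 : r ≠ 0 := by
      rintro rfl
      exact ha0 (by rw [hr, mul_zero])
    rw [hr, mM_mul f r hfp.ne_zero hr0]
    have := one_le_mM r hr0
    nlinarith
  have hFf : mM F = mM f := by rw [← hx, hxf]
  have hD : mM D = 1 := by nlinarith
  have haF : mM a = mM F := by rw [hm, hD, one_mul]
  have h5 : mx a b ≤ Real.log (mM F) + (Real.log 18 + 5 * gh P d) := by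
    have h6 := mx_mul D a b hD0 ha0
    rw [ha, hb, hD, Real.log_one, zero_add] at h6
    linarith
  refine ⟨k + 1, Nat.succ_pos k, a, b, ha0, hb0, hab, ?_, by rw [haF, hx]⟩
  refine le_trans ?_ (le_max_right _ _)
  have h6 : Real.log (mM F) ≤ Real.log (max B 1) := by
    rw [← hx]
    refine Real.log_le_log ?_ (le_max_of_le_left hxB'.le)
    rw [hxf]
    linarith
  have h7 : Λ x ≤ Λ B := hΛ hxB'.le
  linarith

end

end Pool.Agent.Helper168.SV
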